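import Pool.Agent.Work.MP_c264fd_rough.Perturb

/-!
# The correlation inequality for lists of fixed length
-/

namespace Pool.BDep.Rough

/-- the test function of depth `i` -/
noncomputable def uu (Λ : Finset ℤ) (B : ℕ → Finset ℤ) (L i : ℕ) (y : ℤ) : ℝ :=
  if i < L then uu0 Λ (B i) y else 0

/-- its variance -/
noncomputable def cc (Λ : Finset ℤ) (B : ℕ → Finset ℤ) (L i : ℕ) : ℝ :=
  if i < L then (1 / ((B i).card : ℝ) - 1 / Λ.card) / Λ.card else 0

/-- the sum of the test functions -/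
noncomputable def SSu (Λ : Finset ℤ) (B : ℕ → Finset ℤ) (L : ℕ) : List ℤ → ℝ
  | [] => 0
  | y :: l => SSu Λ B L l + uu Λ B L l.length y

theorem SSu_cons (Λ : Finset ℤ) (B : ℕ → Finset ℤ) (L : ℕ) (y : ℤ) (l : List ℤ) :
    SSu Λ B L (y :: l) = SSu Λ B L l + uu Λ B L l.length y := rfl

variable {Λ : Finset ℤ} {B : ℕ → Finset ℤ} {L : ℕ}

theorem uu_sum (hB : ∀ i < L, B i ⊆ Λ) (hB0 : ∀ i < L, 0 < (B i).card) (i : ℕ) :
    ∑ y ∈ Λ, uu Λ B L i y = 0 := by
  unfold uu
  by_cases hi : i < L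
  · simp only [if_pos hi]
    exact uu0_sum (hB i hi) (hB0 i hi)
  · simp only [if_neg hi]
    exact Finset.sum_const_zero

theorem uu_sq (hB : ∀ i < L, B i ⊆ Λ) (hB0 : ∀ i < L, 0 < (B i).card) (i : ℕ) :
    (∑ y ∈ Λ, uu Λ B L i y ^ 2) / Λ.card = cc Λ B L i := by
  unfold uu cc
  by_cases hi : i < L
  · simp only [if_pos hi]
    rw [uu0_sq (hB i hi) (hB0 i hi)]
  · simp only [if_neg hi]
    simp

theorem cc_nonneg (hB : ∀ i < L, B i ⊆ Λ) (hB0 : ∀ i < L, 0 < (B i).card) (i : ℕ) :
    0 ≤ cc Λ B L i := by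
  rw [← uu_sq hB hB0]
  positivity

theorem Em_SSu (hB : ∀ i < L, B i ⊆ Λ) (hB0 : ∀ i < L, 0 < (B i).card) (hΛ : 0 < Λ.card)
    (m : ℕ) : Em Λ m (SSu Λ B L) = 0 := by
  induction m with
  | zero => rfl
  | succ m ih =>
    rw [Em_succ']
    have h1 : ∀ l : List ℤ, l.length = m → (∑ y ∈ Λ, SSu Λ B L (y :: l)) / (Λ.card : ℝ)
        = SSu Λ B L l := by
      intro l _
      have hN : (0 : ℝ) < Λ.card := by exact_mod_cast hΛ
      simp_rw [SSu_cons]
      rw [Finset.sum_add_distrib, uu_sum hB hB0, add_zero, Finset.sum_const, nsmul_eq_mul,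
        mul_div_cancel_left₀ _ hN.ne']
    rw [Em_congr m h1, ih]

/-- the second moment of the sum of the test functions -/
theorem Em_SSu_sq (hB : ∀ i < L, B i ⊆ Λ) (hB0 : ∀ i < L, 0 < (B i).card) (hΛ : 0 < Λ.card)
    (m : ℕ) : Em Λ m (fun l => SSu Λ B L l ^ 2) = ∑ i ∈ Finset.range m, cc Λ B L i := by
  induction m with
  | zero => simp [Em_zero, SSu]
  | succ m ih =>
    rw [Em_succ', Finset.sum_range_succ, ← ih, ← uu_sq hB hB0 m]
    have h1 : ∀ l : List ℤ, l.length = m → (∑ y ∈ Λ, SSu Λ B L (y :: l) ^ 2) / (Λ.card : ℝ)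
        = SSu Λ B L l ^ 2 + (∑ y ∈ Λ, uu Λ B L m y ^ 2) / Λ.card := by
      intro l hl
      have hN : (0 : ℝ) < Λ.card := by exact_mod_cast hΛ
      have h2 : ∀ y ∈ Λ, SSu Λ B L (y :: l) ^ 2 = SSu Λ B L l ^ 2
          + 2 * SSu Λ B L l * uu Λ B L m y + uu Λ B L m y ^ 2 := by
        intro y _
        rw [SSu_cons, hl]
        ring
      rw [Finset.sum_congr rfl h2, Finset.sum_add_distrib, Finset.sum_add_distrib,
        ← Finset.mul_sum, uu_sum hB hB0, mul_zero, add_zero, Finset.sum_const, nsmul_eq_mul,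
        add_div, mul_div_cancel_left₀ _ hN.ne']
    rw [Em_congr m h1, Em_add, Em_const hΛ]

open Classical in
/-- probability of the bad event -/
noncomputable def pbad (Λ : Finset ℤ) (B : ℕ → Finset ℤ) (z : ℤ) (Q : FarPart) (i : ℕ) : ℝ :=
  Em Λ i (fun l => if Good z Q (B i) l then 0 else 1)

/-- mean size of the influence sets -/
noncomputable def dsz (Λ : Finset ℤ) (z : ℤ) (Q : FarPart) (i : ℕ) : ℝ :=
  Em Λ i (fun l => ((II z l).card : ℝ) + ((Q.dom l).card : ℝ)) / Λ.card

/-- the error of one step -/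
noncomputable def err (Λ : Finset ℤ) (B : ℕ → Finset ℤ) (L : ℕ) (z : ℤ) (Q : FarPart)
    (M : ℕ) (i : ℕ) : ℝ :=
  (if i < L then (M + 2) * pbad Λ B z Q i / Λ.card else 0) + cc Λ B L i * dsz Λ z Q i

/-- the probability of the window -/
noncomputable def pw (Λ : Finset ℤ) (z : ℤ) (Q : FarPart) (b : ℤ) (M m : ℕ) (h : Config) : ℝ :=
  Em Λ m (fun l => win b M (ZZ z Q l h))

/-- one more ring changes the probability of the window by little -/
theorem pw_succ_le (hΛ : 0 < Λ.card) (z : ℤ) (Q : FarPart) (b : ℤ) (M m : ℕ) (h : Config) :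
    pw Λ z Q b M (m + 1) h ≤ pw Λ z Q b M m h + dsz Λ z Q m := by
  classical
  have hN : (0 : ℝ) < Λ.card := by exact_mod_cast hΛ
  unfold pw dsz
  rw [Em_succ']
  have h1 : ∀ l : List ℤ, l.length = m →
      (∑ y ∈ Λ, win b M (ZZ z Q (y :: l) h)) / (Λ.card : ℝ)
      ≤ win b M (ZZ z Q l h)
        + (Λ.card : ℝ)⁻¹ * (((II z l).card : ℝ) + ((Q.dom l).card : ℝ)) := by
    intro l _
    have h2 : ∀ y ∈ Λ, win b M (ZZ z Q (y :: l) h) ≤ win b M (ZZ z Q l h)
        + ((if y ∈ II z l then 1 else 0) + (if y ∈ Q.dom l then 1 else 0)) := by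
      intro y _
      by_cases hy1 : y ∈ II z l
      · rw [if_pos hy1]
        have := win_le b M (ZZ z Q (y :: l) h)
        have := win_nonneg b M (ZZ z Q l h)
        split_ifs <;> linarith
      · by_cases hy2 : y ∈ Q.dom l
        · rw [if_neg hy1, if_pos hy2]
          have := win_le b M (ZZ z Q (y :: l) h)
          have := win_nonneg b M (ZZ z Q l h)
          linarith
        · rw [if_neg hy1, if_neg hy2, add_zero, add_zero, ZZ_cons]
          have e : ZZ z Q l (ring y h) = ZZ z Q l h := by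
            unfold ZZ
            rw [run_ring_eq l h y z hy1, Q.eq l h y hy2]
          rw [e]
    have h3 := Finset.sum_le_sum h2
    rw [Finset.sum_add_distrib, Finset.sum_add_distrib, Finset.sum_const, nsmul_eq_mul,
      Finset.sum_ite_mem, Finset.sum_ite_mem, Finset.sum_const, Finset.sum_const,
      nsmul_eq_mul, nsmul_eq_mul, mul_one, mul_one] at h3
    have h4 : ((Λ ∩ II z l).card : ℝ) ≤ (II z l).card := by
      exact_mod_cast Finset.card_le_card Finset.inter_subset_right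
    have h5 : ((Λ ∩ Q.dom l).card : ℝ) ≤ (Q.dom l).card := by
      exact_mod_cast Finset.card_le_card Finset.inter_subset_right
    rw [div_le_iff₀ hN, add_mul, inv_mul_eq_div, div_mul_cancel₀ _ hN.ne']
    linarith
  refine (Em_mono m h1).trans (le_of_eq ?_)
  rw [Em_add, Em_const_mul, inv_mul_eq_div]

theorem pw_succ (z : ℤ) (Q : FarPart) (b : ℤ) (M m : ℕ) (h : Config) :
    pw Λ z Q b M (m + 1) h = (∑ y ∈ Λ, pw Λ z Q b M m (ring y h)) / Λ.card := by
  unfold pw
  rw [Em_succ]
  simp_rw [ZZ_cons]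

/-- THE CORRELATION INEQUALITY -/
theorem corr (hB : ∀ i < L, B i ⊆ Λ) (hB0 : ∀ i < L, 0 < (B i).card) (hΛ : 0 < Λ.card)
    (z : ℤ) (Q : FarPart) (b : ℤ) (M m : ℕ) : ∀ h : Config,
    (∑ i ∈ Finset.range m, cc Λ B L i) * pw Λ z Q b M m h
        - ∑ i ∈ Finset.range m, err Λ B L z Q M i
      ≤ Em Λ m (fun l => clip b M (ZZ z Q l h) * SSu Λ B L l) := by
  classical
  have hN : (0 : ℝ) < Λ.card := by exact_mod_cast hΛ
  induction m with
  | zero => intro h; simp [Em_zero, SSu]
  | succ m ih =>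
    intro h
    have e1 : Em Λ (m + 1) (fun l => clip b M (ZZ z Q l h) * SSu Λ B L l)
        = (∑ y ∈ Λ, Em Λ m (fun l => clip b M (ZZ z Q l (ring y h)) * SSu Λ B L l)) / Λ.card
          + Em Λ m (fun l => (Λ.card : ℝ)⁻¹ *
            ∑ y ∈ Λ, uu Λ B L m y * clip b M (ZZ z Q l (ring y h))) := by
      rw [Em_const_mul, Em_sum Λ Λ m fun y l => uu Λ B L m y * clip b M (ZZ z Q l (ring y h)),
        inv_mul_eq_div, ← add_div, ← Finset.sum_add_distrib, Em_succ]
      congr 1
      refine Finset.sum_congr rfl fun y _ => ?_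
      rw [← Em_add]
      refine Em_congr m fun l hl => ?_
      rw [ZZ_cons, SSu_cons, hl]
      ring
    have h1 : (∑ i ∈ Finset.range m, cc Λ B L i) * pw Λ z Q b M (m + 1) h
          - ∑ i ∈ Finset.range m, err Λ B L z Q M i
        ≤ (∑ y ∈ Λ, Em Λ m (fun l => clip b M (ZZ z Q l (ring y h)) * SSu Λ B L l)) / Λ.card := by
      have h2 := Finset.sum_le_sum fun y (_ : y ∈ Λ) => ih (ring y h)
      rw [Finset.sum_sub_distrib, ← Finset.mul_sum, Finset.sum_const, nsmul_eq_mul] at h2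
      rw [pw_succ, le_div_iff₀ hN, sub_mul, mul_assoc, div_mul_cancel₀ _ hN.ne']
      linarith
    have h3 : cc Λ B L m * pw Λ z Q b M (m + 1) h - err Λ B L z Q M m
        ≤ Em Λ m (fun l => (Λ.card : ℝ)⁻¹ *
            ∑ y ∈ Λ, uu Λ B L m y * clip b M (ZZ z Q l (ring y h))) := by
      have h4 : cc Λ B L m * pw Λ z Q b M m h
            - (if m < L then (M + 2) * pbad Λ B z Q m / Λ.card else 0)
          ≤ Em Λ m (fun l => (Λ.card : ℝ)⁻¹ *
            ∑ y ∈ Λ, uu Λ B L m y * clip b M (ZZ z Q l (ring y h))) := by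
        by_cases hm : m < L
        · rw [if_pos hm]
          have h5 : ∀ l : List ℤ, l.length = m →
              cc Λ B L m * win b M (ZZ z Q l h)
                + (-((M + 2) / Λ.card)) * (if Good z Q (B m) l then 0 else 1)
              ≤ (Λ.card : ℝ)⁻¹ * ∑ y ∈ Λ, uu Λ B L m y * clip b M (ZZ z Q l (ring y h)) := by
            intro l _
            have h6 := step_corr (hB m hm) (hB0 m hm) z Q b M l h
            have h7 := mul_le_mul_of_nonneg_left h6 (inv_nonneg.mpr hN.le)
            unfold uu cc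
            simp only [if_pos hm]
            refine le_trans (le_of_eq ?_) h7
            rw [inv_mul_eq_div]
            ring
          refine le_trans (le_of_eq ?_) (Em_mono m h5)
          rw [Em_add, Em_const_mul, Em_const_mul]
          unfold pw pbad
          ring
        · rw [if_neg hm]
          have h5 : cc Λ B L m = 0 := by
            unfold cc
            rw [if_neg hm]
          rw [h5, zero_mul, sub_zero]
          refine Em_nonneg m fun l _ => ?_
          unfold uu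
          simp [hm]
      have h8 := mul_le_mul_of_nonneg_left (pw_succ_le hΛ z Q b M m h) (cc_nonneg hB hB0 m)
      unfold err
      linarith
    rw [e1, Finset.sum_range_succ, Finset.sum_range_succ, add_mul]
    linarith

/-- the consequence for the probability of the window -/
theorem pw_bound (hB : ∀ i < L, B i ⊆ Λ) (hB0 : ∀ i < L, 0 < (B i).card) (hΛ : 0 < Λ.card)
    (z : ℤ) (Q : FarPart) (b : ℤ) (M m : ℕ) (h : Config)
    (hV : 0 < ∑ i ∈ Finset.range m, cc Λ B L i) :
    (∑ i ∈ Finset.range m, cc Λ B L i) * pw Λ z Q b M m h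
      ≤ (M + 1) * Real.sqrt (∑ i ∈ Finset.range m, cc Λ B L i)
        + ∑ i ∈ Finset.range m, err Λ B L z Q M i := by
  set V := ∑ i ∈ Finset.range m, cc Λ B L i with hVdef
  have h1 := corr hB hB0 hΛ z Q b M m h
  have hs : 0 < Real.sqrt V := Real.sqrt_pos.mpr hV
  have hss : Real.sqrt V * Real.sqrt V = V := Real.mul_self_sqrt hV.le
  have h2 : Em Λ m (fun l => clip b M (ZZ z Q l h) * SSu Λ B L l)
      ≤ (M + 1) * Real.sqrt V := by
    have h3 : ∀ l : List ℤ, l.length = m → clip b M (ZZ z Q l h) * SSu Λ B L l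
        ≤ (M + 1) * Real.sqrt V / 2 + ((M + 1) / (2 * Real.sqrt V)) * SSu Λ B L l ^ 2 := by
      intro l _
      have hk0 := clip_nonneg b M (ZZ z Q l h)
      have hk1 := clip_le b M (ZZ z Q l h)
      set S := SSu Λ B L l
      set k := clip b M (ZZ z Q l h)
      have h4 : k * S ≤ (M + 1) * |S| := by
        calc k * S ≤ k * |S| := mul_le_mul_of_nonneg_left (le_abs_self S) hk0
          _ ≤ (M + 1) * |S| := mul_le_mul_of_nonneg_right hk1 (abs_nonneg S)
      have h5 : |S| ≤ Real.sqrt V / 2 + S ^ 2 / (2 * Real.sqrt V) := by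
        have h6 : 0 ≤ (|S| - Real.sqrt V) ^ 2 := sq_nonneg _
        have h7 : S ^ 2 = |S| ^ 2 := (sq_abs S).symm
        rw [h7, ← sub_nonneg]
        have h8 : Real.sqrt V / 2 + |S| ^ 2 / (2 * Real.sqrt V) - |S|
            = (|S| - Real.sqrt V) ^ 2 / (2 * Real.sqrt V) := by
          field_simp
          ring
        rw [h8]
        positivity
      have hM : (0 : ℝ) ≤ M + 1 := by positivity
      calc k * S ≤ (M + 1) * |S| := h4
        _ ≤ (M + 1) * (Real.sqrt V / 2 + S ^ 2 / (2 * Real.sqrt V)) :=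
            mul_le_mul_of_nonneg_left h5 hM
        _ = _ := by ring
    refine (Em_mono m h3).trans ?_
    rw [Em_add, Em_const hΛ, Em_const_mul, Em_SSu_sq hB hB0 hΛ, ← hVdef]
    have h9 : (M + 1) / (2 * Real.sqrt V) * V = (M + 1) * Real.sqrt V / 2 := by
      rw [div_mul_eq_mul_div, div_eq_div_iff (by positivity) (by norm_num)]
      nlinarith [hss]
    rw [h9]
    linarith
  linarith

end Pool.BDep.Rough
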