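import Pool.Agent.Work.MP_c264fd_pr_h14.Defs

/-!
# Roughness of one-dimensional ballistic deposition: statements
-/

open MeasureTheory ProbabilityTheory

namespace Pool.BDep

/-- Anticoncentration of the stationary laws: for EVERY stationary distribution `μ` of the
recentred process, every site `x` with `|x| ≥ 2` and every window of `M + 1` consecutive integers,
the height `g(x)` is in the window with probability at most `C (M + 1) / √(log |x|)`. -/
def StationaryRough (C : ℝ) : Prop :=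
  ∀ μ : Measure Config, IsStationary μ → ∀ (x : ℤ) (a : ℤ) (M : ℕ), 2 ≤ |x| →
    μ {g | a ≤ g x ∧ g x ≤ a + M} ≤ ENNReal.ofReal (C * (M + 1) / Real.sqrt (Real.log |(x : ℝ)|))

/-- Anticoncentration of the height differences, from EVERY initial condition. -/
def DifferenceRough (C : ℝ) : Prop :=
  ∀ (Ω : Type) (_ : MeasurableSpace Ω) (P : Measure Ω) (_ : IsProbabilityMeasure P)
    (C' : ℤ → Ω → Set ℝ) (g : Ω → Config) (H : ℝ → Ω → Config),
    IsBallisticDeposition P C' g H →
    ∀ (x y : ℤ) (a : ℤ) (M : ℕ) (t R : ℝ), 2 ≤ R → R ≤ t → R ≤ |(x : ℝ) - y| →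
      P {ω | a ≤ H t ω x - H t ω y ∧ H t ω x - H t ω y ≤ a + M}
        ≤ ENNReal.ofReal (C * (M + 1) / Real.sqrt (Real.log R))

/-- Anticoncentration of one height, from EVERY initial condition. -/
def HeightRough (C : ℝ) : Prop :=
  ∀ (Ω : Type) (_ : MeasurableSpace Ω) (P : Measure Ω) (_ : IsProbabilityMeasure P)
    (C' : ℤ → Ω → Set ℝ) (g : Ω → Config) (H : ℝ → Ω → Config),
    IsBallisticDeposition P C' g H →
    ∀ (x : ℤ) (a : ℤ) (M : ℕ) (t : ℝ), 2 ≤ t →
      P {ω | a ≤ H t ω x ∧ H t ω x ≤ a + M}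
        ≤ ENNReal.ofReal (C * (M + 1) / Real.sqrt (Real.log t))

/-- The mean of `|g(x)|` grows at least like `√(log |x|)`, for every stationary distribution (the
constants are universal). -/
def MeanRough (c : ℝ) (x₀ : ℝ) : Prop :=
  ∀ μ : Measure Config, IsStationary μ → ∀ x : ℤ, x₀ ≤ |(x : ℝ)| →
    ENNReal.ofReal (c * Real.sqrt (Real.log |(x : ℝ)|))
      ≤ ∫⁻ g, ENNReal.ofReal |((g x : ℤ) : ℝ)| ∂μ

end Pool.BDep
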