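import Pool.Agent.Work.MP_c264fd_rough.Scales
import Pool.Agent.Work.MP_c264fd_pr_h14.RhoBasic

/-!
# The bound for the law of the list of rings in a box
-/

open MeasureTheory ProbabilityTheory Filter Topology
open scoped ENNReal NNReal

namespace Pool.BDep.Rough

open Rho

/-- the two kinds of sums over lists -/
theorem SS_eq_Em {Λ : Finset ℤ} (hΛ : 0 < Λ.card) (k : ℕ) : ∀ F : List ℤ → ℝ, (∀ l, 0 ≤ F l) →
    SS Λ k (fun l => ENNReal.ofReal (F l)) = ENNReal.ofReal ((Λ.card : ℝ) ^ k * Em Λ k F) := by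
  have hN : (0 : ℝ) < Λ.card := by exact_mod_cast hΛ
  induction k with
  | zero =>
    intro F _
    rw [SS_zero, pow_zero, one_mul, Em_zero]
  | succ k ih =>
    intro F hF
    rw [SS_succ, Finset.sum_congr rfl fun y _ => ih (fun l => F (y :: l)) fun l => hF _,
      ← ENNReal.ofReal_sum_of_nonneg fun y _ =>
        mul_nonneg (by positivity) (Em_nonneg k fun l _ => hF _)]
    congr 1
    rw [← Finset.mul_sum, Em_succ, pow_succ, mul_assoc, mul_div_cancel₀ _ hN.ne']

/-- the window -/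
def Win (b : ℤ) (M : ℕ) (w : ℤ) : Prop := b ≤ w ∧ w ≤ b + M

/-- the tail of the number of rings -/
noncomputable def tl (T : ℕ) (t N : ℝ) : ℝ := 2 ^ (N * T) * Real.exp (-(N * t / 2))

theorem rho_le {Λ : Finset ℤ} (hΛ : 0 < Λ.card) (z : ℤ) (T : ℕ) (Q : FarPart)
    (hQ : FarOK z (6 * T) Q) (b : ℤ) (M : ℕ)
    (hB : Finset.Icc (z - 6 * T) (z + 6 * T) ⊆ Λ) (hV : 0 < Vinf T - T / Λ.card) (h : Config)
    (t : ℝ) (ht : 0 ≤ t) :
    rho Λ t {l | Win b M (ZZ z Q l h)}
      ≤ ENNReal.ofReal (bnd T M Λ.card + tl T t Λ.card) := by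
  classical
  have hN : (0 : ℝ) < Λ.card := by exact_mod_cast hΛ
  have hbnd0 : 0 ≤ bnd T M Λ.card := by
    have := pw_le hΛ z T Q hQ b M (Λ.card * T) le_rfl hB hV h
    refine le_trans ?_ this
    exact Em_nonneg _ fun l _ => win_nonneg _ _ _
  have h1 : rho Λ t {l | Win b M (ZZ z Q l h)}
      = ENNReal.ofReal (Real.exp (-(Λ.card * t))) *
        ∑' k, ww t k * SS Λ k (fun l => ENNReal.ofReal (win b M (ZZ z Q l h))) := by
    rw [← lintegral_indicator_one (MeasurableSet.of_discrete), ← lintegral_rho]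
    refine lintegral_congr fun l => ?_
    by_cases hl : Win b M (ZZ z Q l h)
    · rw [Set.indicator_of_mem (by exact hl)]
      unfold win
      rw [if_pos (by exact hl), ENNReal.ofReal_one]
      rfl
    · rw [Set.indicator_of_notMem (by exact hl)]
      unfold win
      rw [if_neg (by exact hl), ENNReal.ofReal_zero]
  have h2 : ∀ k, SS Λ k (fun l => ENNReal.ofReal (win b M (ZZ z Q l h)))
      ≤ ENNReal.ofReal (bnd T M Λ.card) * ENNReal.ofReal (Λ.card : ℝ) ^ k
        + ENNReal.ofReal (2 ^ ((Λ.card : ℝ) * T)) * ENNReal.ofReal ((Λ.card : ℝ) / 2) ^ k := by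
    intro k
    rw [SS_eq_Em hΛ k _ fun l => win_nonneg _ _ _, ← ENNReal.ofReal_pow hN.le,
      ← ENNReal.ofReal_pow (by positivity), ← ENNReal.ofReal_mul hbnd0,
      ← ENNReal.ofReal_mul (by positivity), ← ENNReal.ofReal_add (by positivity) (by positivity)]
    refine ENNReal.ofReal_le_ofReal ?_
    by_cases hk : Λ.card * T ≤ k
    · have h3 := pw_le hΛ z T Q hQ b M k hk hB hV h
      have h4 : (Λ.card : ℝ) ^ k * Em Λ k (fun l => win b M (ZZ z Q l h))
          ≤ (Λ.card : ℝ) ^ k * bnd T M Λ.card := mul_le_mul_of_nonneg_left h3 (by positivity)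
      have h5 : 0 ≤ (2 : ℝ) ^ ((Λ.card : ℝ) * T) * ((Λ.card : ℝ) / 2) ^ k := by positivity
      linarith
    · have h3 : Em Λ k (fun l => win b M (ZZ z Q l h)) ≤ 1 := by
        refine (Em_mono k fun l _ => win_le _ _ _).trans ?_
        rw [Em_const hΛ]
      have h4 : (Λ.card : ℝ) ^ k * Em Λ k (fun l => win b M (ZZ z Q l h))
          ≤ (Λ.card : ℝ) ^ k * 1 := mul_le_mul_of_nonneg_left h3 (by positivity)
      have h5 : 0 ≤ bnd T M Λ.card * (Λ.card : ℝ) ^ k := by positivity
      have h6 : (Λ.card : ℝ) ^ k * 1 ≤ 2 ^ ((Λ.card : ℝ) * T) * ((Λ.card : ℝ) / 2) ^ k := by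
        rw [div_pow, mul_one]
        have h7 : (2 : ℝ) ^ k ≤ 2 ^ ((Λ.card : ℝ) * T) := by
          rw [← Real.rpow_natCast]
          refine Real.rpow_le_rpow_of_exponent_le one_le_two ?_
          have h8 : (k : ℝ) ≤ (Λ.card * T : ℕ) := by
            have : k ≤ Λ.card * T := by omega
            exact_mod_cast this
          push_cast at h8
          exact h8
        have h8 : (0 : ℝ) < (2 : ℝ) ^ k := by positivity
        rw [← mul_div_assoc, le_div_iff₀ h8, mul_comm]
        exact mul_le_mul_of_nonneg_right h7 (by positivity)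
      linarith
  rw [h1]
  calc ENNReal.ofReal (Real.exp (-(Λ.card * t))) *
        ∑' k, ww t k * SS Λ k (fun l => ENNReal.ofReal (win b M (ZZ z Q l h)))
      ≤ ENNReal.ofReal (Real.exp (-(Λ.card * t))) *
        ∑' k, (ENNReal.ofReal (bnd T M Λ.card) * (ww t k * ENNReal.ofReal (Λ.card : ℝ) ^ k)
        + ENNReal.ofReal (2 ^ ((Λ.card : ℝ) * T)) *
          (ww t k * ENNReal.ofReal ((Λ.card : ℝ) / 2) ^ k)) := by
        refine mul_le_mul_right (ENNReal.tsum_le_tsum fun k => ?_) _
        refine (mul_le_mul_right (h2 k) _).trans (le_of_eq ?_)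
        ring
    _ = ENNReal.ofReal (bnd T M Λ.card + tl T t Λ.card) := by
        rw [ENNReal.tsum_add, ENNReal.tsum_mul_left, ENNReal.tsum_mul_left,
          tsum_ww ht hN.le, tsum_ww ht (by positivity), mul_add, ← mul_assoc, ← mul_assoc,
          ENNReal.ofReal_add hbnd0 (by unfold tl; positivity)]
        congr 1
        · rw [← ENNReal.ofReal_mul (Real.exp_pos _).le, ← ENNReal.ofReal_mul (by positivity)]
          congr 1
          rw [mul_comm (Real.exp _) (bnd T M _), mul_assoc, ← Real.exp_add, neg_add_cancel,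
            Real.exp_zero, mul_one]
        · rw [← ENNReal.ofReal_mul (Real.exp_pos _).le, ← ENNReal.ofReal_mul (by positivity)]
          congr 1
          unfold tl
          rw [mul_comm (Real.exp _) (2 ^ ((Λ.card : ℝ) * T)), mul_assoc, ← Real.exp_add]
          congr 2
          ring

theorem tl_tendsto (T : ℕ) (hT : 0 < T) (t : ℝ) (ht : 2 * T ≤ t) :
    Tendsto (fun n : ℕ => tl T t (2 * n + 1 : ℕ)) atTop (𝓝 0) := by
  have h0 : Tendsto (fun n : ℕ => ((2 * n + 1 : ℕ) : ℝ)) atTop atTop := by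
    refine tendsto_natCast_atTop_atTop.comp (tendsto_atTop_mono (fun n => ?_) tendsto_id)
    simp only [id]
    omega
  have hT' : (1 : ℝ) ≤ T := by exact_mod_cast hT
  have hc : Real.log 2 * T - t / 2 < 0 := by
    have h2 : Real.log 2 < 1 := by
      have := Real.log_two_lt_d9
      linarith
    nlinarith
  have h1 : ∀ N : ℝ, tl T t N = Real.exp (N * (Real.log 2 * T - t / 2)) := by
    intro N
    unfold tl
    rw [Real.rpow_def_of_pos (by norm_num), ← Real.exp_add]
    congr 1
    ring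
  simp_rw [h1]
  exact Real.tendsto_exp_atBot.comp (h0.atTop_mul_const_of_neg hc)

end Pool.BDep.Rough
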