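import Pool.Agent.Work.MP_c264fd_pr_helper94.Det

/-!
# Means over the lists of rings of fixed length
-/

namespace Pool.BDep.Rough

/-- mean of `F` over the lists of length `m` with entries in `Λ` -/
noncomputable def Em (Λ : Finset ℤ) : ℕ → (List ℤ → ℝ) → ℝ
  | 0, F => F []
  | m + 1, F => (∑ y ∈ Λ, Em Λ m (fun l => F (y :: l))) / Λ.card

theorem Em_zero (Λ : Finset ℤ) (F : List ℤ → ℝ) : Em Λ 0 F = F [] := rfl

theorem Em_succ (Λ : Finset ℤ) (m : ℕ) (F : List ℤ → ℝ) :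
    Em Λ (m + 1) F = (∑ y ∈ Λ, Em Λ m (fun l => F (y :: l))) / Λ.card := rfl

theorem Em_mono {Λ : Finset ℤ} (m : ℕ) : ∀ {F G : List ℤ → ℝ},
    (∀ l : List ℤ, l.length = m → F l ≤ G l) → Em Λ m F ≤ Em Λ m G := by
  induction m with
  | zero => intro F G h; exact h [] rfl
  | succ m ih =>
    intro F G h
    rw [Em_succ, Em_succ]
    refine div_le_div_of_nonneg_right (Finset.sum_le_sum fun y _ => ih fun l hl => ?_)
      (Nat.cast_nonneg _)
    exact h (y :: l) (by simp [hl])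

theorem Em_congr {Λ : Finset ℤ} (m : ℕ) {F G : List ℤ → ℝ}
    (h : ∀ l : List ℤ, l.length = m → F l = G l) : Em Λ m F = Em Λ m G :=
  le_antisymm (Em_mono m fun l hl => (h l hl).le) (Em_mono m fun l hl => (h l hl).ge)

theorem Em_add (Λ : Finset ℤ) (m : ℕ) : ∀ (F G : List ℤ → ℝ),
    Em Λ m (fun l => F l + G l) = Em Λ m F + Em Λ m G := by
  induction m with
  | zero => intro F G; rfl
  | succ m ih =>
    intro F G
    rw [Em_succ, Em_succ, Em_succ, ← add_div, ← Finset.sum_add_distrib]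
    congr 1
    exact Finset.sum_congr rfl fun y _ => ih _ _

theorem Em_const_mul (Λ : Finset ℤ) (m : ℕ) (c : ℝ) : ∀ (F : List ℤ → ℝ),
    Em Λ m (fun l => c * F l) = c * Em Λ m F := by
  induction m with
  | zero => intro F; rfl
  | succ m ih =>
    intro F
    rw [Em_succ, Em_succ, ← mul_div_assoc, Finset.mul_sum]
    congr 1
    exact Finset.sum_congr rfl fun y _ => ih _

theorem Em_sum {ι : Type*} (s : Finset ι) (Λ : Finset ℤ) (m : ℕ) : ∀ (F : ι → List ℤ → ℝ),
    Em Λ m (fun l => ∑ i ∈ s, F i l) = ∑ i ∈ s, Em Λ m (F i) := by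
  induction m with
  | zero => intro F; rfl
  | succ m ih =>
    intro F
    rw [Em_succ, Finset.sum_congr rfl fun y _ => ih fun i l => F i (y :: l), Finset.sum_comm,
      Finset.sum_div]
    rfl

theorem Em_succ' (Λ : Finset ℤ) (m : ℕ) (F : List ℤ → ℝ) :
    Em Λ (m + 1) F = Em Λ m (fun l => (∑ y ∈ Λ, F (y :: l)) / Λ.card) := by
  have h1 : (fun l => (∑ y ∈ Λ, F (y :: l)) / (Λ.card : ℝ))
      = fun l => (Λ.card : ℝ)⁻¹ * ∑ y ∈ Λ, F (y :: l) := by
    funext l
    rw [div_eq_inv_mul]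
  rw [h1, Em_const_mul, Em_sum Λ Λ m fun y l => F (y :: l), Em_succ, div_eq_inv_mul]

theorem Em_const {Λ : Finset ℤ} (hΛ : 0 < Λ.card) (m : ℕ) (c : ℝ) :
    Em Λ m (fun _ => c) = c := by
  induction m with
  | zero => rfl
  | succ m ih =>
    have h1 : (Λ.card : ℝ) ≠ 0 := by positivity
    rw [Em_succ, Finset.sum_congr rfl fun y _ => ih, Finset.sum_const, nsmul_eq_mul]
    field_simp

theorem Em_nonneg {Λ : Finset ℤ} (m : ℕ) : ∀ {F : List ℤ → ℝ},
    (∀ l : List ℤ, l.length = m → 0 ≤ F l) → 0 ≤ Em Λ m F := by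
  induction m with
  | zero => intro F h; exact h [] rfl
  | succ m ih =>
    intro F h
    rw [Em_succ]
    refine div_nonneg (Finset.sum_nonneg fun y _ => ih fun l hl => ?_) (Nat.cast_nonneg _)
    exact h (y :: l) (by simp [hl])

/-! ## The greedy ends -/

/-- mean of a greedy end -/
theorem Em_end {Λ : Finset ℤ} (hΛ : 0 < Λ.card) (e g : List ℤ → ℤ)
    (hstep : ∀ x l, e (x :: l) = if x = g l then e l + 1 else e l) (m : ℕ) :
    Em Λ m (fun l => (e l : ℝ)) ≤ (e [] : ℝ) + m / Λ.card := by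
  have hN : (0 : ℝ) < Λ.card := by exact_mod_cast hΛ
  induction m with
  | zero => simp [Em_zero]
  | succ m ih =>
    rw [Em_succ']
    have h1 : ∀ l : List ℤ, (∑ y ∈ Λ, ((e (y :: l) : ℤ) : ℝ)) / Λ.card
        ≤ (e l : ℝ) + 1 / Λ.card := by
      intro l
      have h2 : ∀ y ∈ Λ, ((e (y :: l) : ℤ) : ℝ) = (e l : ℝ) + if y = g l then 1 else 0 := by
        intro y _
        rw [hstep]
        split_ifs <;> push_cast <;> ring
      rw [Finset.sum_congr rfl h2, Finset.sum_add_distrib, Finset.sum_const, nsmul_eq_mul,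
        Finset.sum_ite_eq', add_div, mul_div_cancel_left₀ _ hN.ne']
      have h3 : (if g l ∈ Λ then (1 : ℝ) else 0) / Λ.card ≤ 1 / Λ.card := by
        refine div_le_div_of_nonneg_right ?_ hN.le
        split_ifs <;> norm_num
      linarith
    calc Em Λ m (fun l => (∑ y ∈ Λ, ((e (y :: l) : ℤ) : ℝ)) / Λ.card)
        ≤ Em Λ m (fun l => (e l : ℝ) + 1 / Λ.card) := Em_mono m fun l _ => h1 l
      _ = Em Λ m (fun l => (e l : ℝ)) + 1 / Λ.card := by
          rw [Em_add, Em_const hΛ]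
      _ ≤ (e [] : ℝ) + ((m + 1 : ℕ) : ℝ) / Λ.card := by
          push_cast
          rw [add_div]
          linarith

/-- exponential moment of a greedy end -/
theorem Em_end_exp {Λ : Finset ℤ} (hΛ : 0 < Λ.card) (e g : List ℤ → ℤ)
    (hstep : ∀ x l, e (x :: l) = if x = g l then e l + 1 else e l) (m : ℕ) :
    Em Λ m (fun l => (2 : ℝ) ^ (e l)) ≤ (2 : ℝ) ^ (e []) * (1 + 1 / Λ.card) ^ m := by
  have hN : (0 : ℝ) < Λ.card := by exact_mod_cast hΛ
  induction m with
  | zero => simp [Em_zero]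
  | succ m ih =>
    rw [Em_succ']
    have h1 : ∀ l : List ℤ, (∑ y ∈ Λ, (2 : ℝ) ^ (e (y :: l))) / Λ.card
        ≤ (1 + 1 / Λ.card) * (2 : ℝ) ^ (e l) := by
      intro l
      have hp : (0 : ℝ) < 2 ^ (e l) := by positivity
      have h2 : ∀ y ∈ Λ, (2 : ℝ) ^ (e (y :: l))
          = (2 : ℝ) ^ (e l) + if y = g l then (2 : ℝ) ^ (e l) else 0 := by
        intro y _
        rw [hstep]
        split_ifs
        · rw [zpow_add_one₀ two_ne_zero]; ring
        · ring
      rw [Finset.sum_congr rfl h2, Finset.sum_add_distrib, Finset.sum_const, nsmul_eq_mul,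
        Finset.sum_ite_eq', add_div, mul_div_cancel_left₀ _ hN.ne']
      have h3 : (if g l ∈ Λ then (2 : ℝ) ^ (e l) else 0) / Λ.card ≤ 2 ^ (e l) / Λ.card := by
        refine div_le_div_of_nonneg_right ?_ hN.le
        split_ifs
        · exact le_rfl
        · exact hp.le
      have h4 : (1 + 1 / (Λ.card : ℝ)) * (2 : ℝ) ^ (e l) = 2 ^ (e l) + 2 ^ (e l) / Λ.card := by
        ring
      rw [h4]
      linarith
    calc Em Λ m (fun l => (∑ y ∈ Λ, (2 : ℝ) ^ (e (y :: l))) / Λ.card)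
        ≤ Em Λ m (fun l => (1 + 1 / (Λ.card : ℝ)) * (2 : ℝ) ^ (e l)) :=
          Em_mono m fun l _ => h1 l
      _ = (1 + 1 / (Λ.card : ℝ)) * Em Λ m (fun l => (2 : ℝ) ^ (e l)) := Em_const_mul _ _ _ _
      _ ≤ (1 + 1 / (Λ.card : ℝ)) * ((2 : ℝ) ^ (e []) * (1 + 1 / Λ.card) ^ m) :=
          mul_le_mul_of_nonneg_left ih (by positivity)
      _ = _ := by rw [pow_succ]; ring

/-- tail of a greedy end -/
theorem Em_end_tail {Λ : Finset ℤ} (hΛ : 0 < Λ.card) (e g : List ℤ → ℤ)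
    (hstep : ∀ x l, e (x :: l) = if x = g l then e l + 1 else e l) (m : ℕ) (r : ℤ) :
    Em Λ m (fun l => if e [] + r ≤ e l then (1 : ℝ) else 0)
      ≤ (2 : ℝ) ^ (-r) * (1 + 1 / Λ.card) ^ m := by
  have h1 : ∀ l : List ℤ, l.length = m → (if e [] + r ≤ e l then (1 : ℝ) else 0)
      ≤ (2 : ℝ) ^ (-(e [] + r)) * (2 : ℝ) ^ (e l) := by
    intro l _
    split_ifs with h
    · rw [← zpow_add₀ two_ne_zero]
      exact one_le_zpow₀ one_le_two (by omega)
    · positivity
  refine (Em_mono m h1).trans ?_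
  rw [Em_const_mul]
  refine (mul_le_mul_of_nonneg_left (Em_end_exp hΛ e g hstep m) (by positivity)).trans
    (le_of_eq ?_)
  rw [← mul_assoc, ← zpow_add₀ two_ne_zero]
  congr 2
  ring

/-- the influence interval -/
noncomputable def II (z : ℤ) (l : List ℤ) : Finset ℤ := Finset.Icc (gl z l) (gr z l)

theorem negl_step (z x : ℤ) (l : List ℤ) :
    -gl z (x :: l) = if x = gl z l then -gl z l + 1 else -gl z l := by
  rw [gl_cons]
  split_ifs <;> ring

theorem card_II (z : ℤ) (l : List ℤ) : ((II z l).card : ℝ) = (gr z l : ℝ) + (-gl z l : ℤ) + 1 := by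
  have h := ends_bounds l z
  have h1 : ((II z l).card : ℤ) = gr z l + (-gl z l) + 1 := by
    rw [II, Int.card_Icc]
    have : 0 ≤ gr z l + 1 - gl z l := by omega
    rw [Int.toNat_of_nonneg this]
    ring
  exact_mod_cast h1

theorem Em_card_II {Λ : Finset ℤ} (hΛ : 0 < Λ.card) (z : ℤ) (m : ℕ) :
    Em Λ m (fun l => ((II z l).card : ℝ)) ≤ 1 + 2 * m / Λ.card := by
  have h1 := Em_end hΛ (gr z) (gr z) (fun x l => gr_cons z x l) m
  have h2 := Em_end hΛ (fun l => -gl z l) (gl z) (fun x l => negl_step z x l) m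
  have h3 : Em Λ m (fun l => ((II z l).card : ℝ))
      = Em Λ m (fun l => (gr z l : ℝ)) + Em Λ m (fun l => ((-gl z l : ℤ) : ℝ)) + 1 := by
    rw [Em_congr m fun l _ => card_II z l, Em_add, Em_const hΛ, Em_add]
  rw [h3]
  have h4 : gr z [] = z := rfl
  have h5 : gl z [] = z := rfl
  rw [h4] at h1
  simp only [h5] at h2
  have h6 : (2 * (m : ℝ) / Λ.card) = m / Λ.card + m / Λ.card := by ring
  rw [h6]
  push_cast at h2 ⊢
  linarith

/-- probability that the influence interval is long -/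
theorem Em_II_tail {Λ : Finset ℤ} (hΛ : 0 < Λ.card) (z : ℤ) (m : ℕ) (r : ℕ) :
    Em Λ m (fun l => if z + r ≤ gr z l ∨ gl z l ≤ z - r then (1 : ℝ) else 0)
      ≤ 2 * ((1 / 2 : ℝ) ^ r * Real.exp (m / Λ.card)) := by
  have hN : (0 : ℝ) < Λ.card := by exact_mod_cast hΛ
  have h1 := Em_end_tail hΛ (gr z) (gr z) (fun x l => gr_cons z x l) m r
  have h2 := Em_end_tail hΛ (fun l => -gl z l) (gl z) (fun x l => negl_step z x l) m r
  have h4 : gr z [] = z := rfl
  have h5 : gl z [] = z := rfl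
  rw [h4] at h1
  simp only [h5] at h2
  have h3 : ∀ l : List ℤ, l.length = m →
      (if z + r ≤ gr z l ∨ gl z l ≤ z - r then (1 : ℝ) else 0)
      ≤ (if z + r ≤ gr z l then (1 : ℝ) else 0) + (if -z + r ≤ -gl z l then (1 : ℝ) else 0) := by
    intro l _
    by_cases ha : z + r ≤ gr z l
    · rw [if_pos (Or.inl ha), if_pos ha]
      split_ifs <;> norm_num
    · by_cases hb : gl z l ≤ z - r
      · rw [if_pos (Or.inr hb), if_neg ha, if_pos (by omega)]
        norm_num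
      · rw [if_neg (by tauto), if_neg ha]
        split_ifs <;> norm_num
  have h6 : (1 + 1 / (Λ.card : ℝ)) ^ m ≤ Real.exp (m / Λ.card) := by
    have h7 : 1 + 1 / (Λ.card : ℝ) ≤ Real.exp (1 / Λ.card) := by
      have := Real.add_one_le_exp (1 / (Λ.card : ℝ))
      linarith
    calc (1 + 1 / (Λ.card : ℝ)) ^ m ≤ (Real.exp (1 / Λ.card)) ^ m :=
          pow_le_pow_left₀ (by positivity) h7 m
      _ = Real.exp (m / Λ.card) := by
          rw [← Real.exp_nat_mul]
          congr 1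
          ring
  have h8 : (2 : ℝ) ^ (-(r : ℤ)) = (1 / 2 : ℝ) ^ r := by
    rw [zpow_neg, zpow_natCast, one_div, inv_pow]
  rw [h8] at h1 h2
  have h9 : (1 / 2 : ℝ) ^ r * (1 + 1 / (Λ.card : ℝ)) ^ m
      ≤ (1 / 2 : ℝ) ^ r * Real.exp (m / Λ.card) :=
    mul_le_mul_of_nonneg_left h6 (by positivity)
  refine (Em_mono m h3).trans ?_
  rw [Em_add]
  linarith

end Pool.BDep.Rough
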