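import Pool.Agent.Work.MP_c264fd_rough.Mean

/-!
# The effect of one additional ring, and the correlation inequality
-/

namespace Pool.BDep.Rough

theorem run_ring_ge (l : List ℤ) (h : Config) (y z : ℤ) : run l h z ≤ run l (ring y h) z :=
  run_mono l _ _ (le_ring y h) z

theorem run_ring_eq (l : List ℤ) (h : Config) (y z : ℤ) (hy : y ∉ II z l) :
    run l (ring y h) z = run l h z := by
  refine run_local l _ _ z fun x hx => ?_
  refine ring_ne ?_ h
  rintro rfl
  exact hy hx

theorem run_ring_gain (l : List ℤ) (h : Config) (z : ℤ) :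
    ∃ y ∈ II z l, run l h z + 1 ≤ run l (ring y h) z := by
  obtain ⟨y, hy, k, -, -, hle, heq⟩ := exists_opt l h z
  refine ⟨y, hy, ?_⟩
  have h1 := hle (ring y h)
  have h2 : h y + 1 ≤ ring y h y := by
    rw [ring_self]
    exact le_max_right _ _
  rw [heq]
  omega

/-- a second height, far from the first one (or none) -/
structure FarPart where
  /-- its value after the rings `l` -/
  val : List ℤ → Config → ℤ
  /-- the sites which can influence it -/
  dom : List ℤ → Finset ℤ
  /-- monotonicity -/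
  ge : ∀ l h y, val l h ≤ val l (ring y h)
  /-- locality -/
  eq : ∀ l h y, y ∉ dom l → val l (ring y h) = val l h
  /-- the first ring -/
  cons : ∀ y l h, val (y :: l) h = val l (ring y h)

/-- the functional `run l h z - (far part)` -/
noncomputable def ZZ (z : ℤ) (Q : FarPart) (l : List ℤ) (h : Config) : ℤ :=
  run l h z - Q.val l h

theorem ZZ_cons (z : ℤ) (Q : FarPart) (y : ℤ) (l : List ℤ) (h : Config) :
    ZZ z Q (y :: l) h = ZZ z Q l (ring y h) := by
  unfold ZZ
  rw [run_cons, Q.cons]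

/-- the truncation -/
noncomputable def clip (b : ℤ) (M : ℕ) (w : ℤ) : ℝ := ((min (max (w - b) 0) (M + 1) : ℤ) : ℝ)

theorem clip_nonneg (b : ℤ) (M : ℕ) (w : ℤ) : 0 ≤ clip b M w := by
  unfold clip
  have : (0 : ℤ) ≤ min (max (w - b) 0) (M + 1) := by omega
  exact_mod_cast this

theorem clip_le (b : ℤ) (M : ℕ) (w : ℤ) : clip b M w ≤ M + 1 := by
  unfold clip
  have : min (max (w - b) 0) ((M : ℤ) + 1) ≤ M + 1 := by omega
  exact_mod_cast this

theorem clip_mono (b : ℤ) (M : ℕ) {w w' : ℤ} (h : w ≤ w') : clip b M w ≤ clip b M w' := by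
  unfold clip
  have : min (max (w - b) 0) ((M : ℤ) + 1) ≤ min (max (w' - b) 0) ((M : ℤ) + 1) := by omega
  exact_mod_cast this

theorem clip_gain (b : ℤ) (M : ℕ) {w w' : ℤ} (h : w + 1 ≤ w') (h1 : b ≤ w) (h2 : w ≤ b + M) :
    clip b M w + 1 ≤ clip b M w' := by
  unfold clip
  have : min (max (w - b) 0) ((M : ℤ) + 1) + 1 ≤ min (max (w' - b) 0) ((M : ℤ) + 1) := by omega
  exact_mod_cast this

/-- the indicator of the window -/
noncomputable def win (b : ℤ) (M : ℕ) (w : ℤ) : ℝ := if b ≤ w ∧ w ≤ b + M then 1 else 0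

theorem win_nonneg (b : ℤ) (M : ℕ) (w : ℤ) : 0 ≤ win b M w := by
  unfold win; split_ifs <;> norm_num

theorem win_le (b : ℤ) (M : ℕ) (w : ℤ) : win b M w ≤ 1 := by
  unfold win; split_ifs <;> norm_num

/-- the test function: `1/|B| - 1/N` on `B`, `- 1/N` outside -/
noncomputable def uu0 (Λ B : Finset ℤ) (y : ℤ) : ℝ :=
  (if y ∈ B then 1 / (B.card : ℝ) else 0) - 1 / Λ.card

theorem uu0_sum {Λ B : Finset ℤ} (hB : B ⊆ Λ) (hB0 : 0 < B.card) :
    ∑ y ∈ Λ, uu0 Λ B y = 0 := by
  have h1 : (0 : ℝ) < B.card := by exact_mod_cast hB0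
  have h2 : (0 : ℝ) < Λ.card := by
    have := Finset.card_le_card hB
    have : 0 < Λ.card := by omega
    exact_mod_cast this
  unfold uu0
  rw [Finset.sum_sub_distrib, Finset.sum_ite_mem, Finset.inter_eq_right.mpr hB, Finset.sum_const,
    Finset.sum_const, nsmul_eq_mul, nsmul_eq_mul]
  field_simp
  norm_num

theorem uu0_sq {Λ B : Finset ℤ} (hB : B ⊆ Λ) (hB0 : 0 < B.card) :
    ∑ y ∈ Λ, uu0 Λ B y ^ 2 = 1 / B.card - 1 / Λ.card := by
  have h1 : (0 : ℝ) < B.card := by exact_mod_cast hB0
  have h2 : (0 : ℝ) < Λ.card := by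
    have := Finset.card_le_card hB
    have : 0 < Λ.card := by omega
    exact_mod_cast this
  have h3 : ∀ y ∈ Λ, uu0 Λ B y ^ 2
      = (if y ∈ B then 1 / (B.card : ℝ) ^ 2 - 2 / (B.card * Λ.card) else 0)
        + 1 / (Λ.card : ℝ) ^ 2 := by
    intro y _
    unfold uu0
    split_ifs
    · field_simp; ring
    · field_simp; ring
  rw [Finset.sum_congr rfl h3, Finset.sum_add_distrib, Finset.sum_ite_mem,
    Finset.inter_eq_right.mpr hB, Finset.sum_const, Finset.sum_const, nsmul_eq_mul, nsmul_eq_mul]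
  field_simp
  ring

/-- the good event: the influence interval of the near height is in `B`, the one of the far part
does not meet `B` -/
def Good (z : ℤ) (Q : FarPart) (B : Finset ℤ) (l : List ℤ) : Prop :=
  II z l ⊆ B ∧ Disjoint (Q.dom l) B

open Classical in
/-- one step of the correlation inequality -/
theorem step_corr {Λ B : Finset ℤ} (hB : B ⊆ Λ) (hB0 : 0 < B.card) (z : ℤ) (Q : FarPart)
    (b : ℤ) (M : ℕ) (l : List ℤ) (h : Config) :
    (1 / (B.card : ℝ) - 1 / Λ.card) * win b M (ZZ z Q l h)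
        - (M + 2) * (if Good z Q B l then 0 else 1)
      ≤ ∑ y ∈ Λ, uu0 Λ B y * clip b M (ZZ z Q l (ring y h)) := by
  have h1 : (0 : ℝ) < B.card := by exact_mod_cast hB0
  have hle := Finset.card_le_card hB
  have h2 : (0 : ℝ) < Λ.card := by
    have : 0 < Λ.card := by omega
    exact_mod_cast this
  have h12 : (B.card : ℝ) ≤ Λ.card := by exact_mod_cast hle
  have hc0 : 0 ≤ 1 / (B.card : ℝ) - 1 / Λ.card := by
    have := one_div_le_one_div_of_le h1 h12
    linarith
  have hc1 : 1 / (B.card : ℝ) - 1 / Λ.card ≤ 1 := by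
    have hb1 : (1 : ℝ) ≤ B.card := by exact_mod_cast hB0
    have h3 : 1 / (B.card : ℝ) ≤ 1 := by
      rw [div_le_one h1]; exact hb1
    have h4 : 0 ≤ 1 / (Λ.card : ℝ) := by positivity
    linarith
  by_cases hg : Good z Q B l
  · rw [if_pos hg, mul_zero, sub_zero]
    obtain ⟨hg1, hg2⟩ := hg
    have e1 : ∑ y ∈ Λ, uu0 Λ B y * clip b M (ZZ z Q l (ring y h))
        = ∑ y ∈ Λ, uu0 Λ B y * (clip b M (ZZ z Q l (ring y h)) - clip b M (ZZ z Q l h)) := by
      simp_rw [mul_sub]
      rw [Finset.sum_sub_distrib, ← Finset.sum_mul, uu0_sum hB hB0, zero_mul, sub_zero]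
    rw [e1]
    have hterm : ∀ y ∈ Λ,
        0 ≤ uu0 Λ B y * (clip b M (ZZ z Q l (ring y h)) - clip b M (ZZ z Q l h)) := by
      intro y _
      by_cases hy : y ∈ B
      · have hf : Q.val l (ring y h) = Q.val l h :=
          Q.eq l h y fun hy' => (Finset.disjoint_left.mp hg2 hy') hy
        have hz : ZZ z Q l h ≤ ZZ z Q l (ring y h) := by
          have := run_ring_ge l h y z
          unfold ZZ
          omega
        refine mul_nonneg ?_ (sub_nonneg.mpr (clip_mono b M hz))
        unfold uu0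
        rw [if_pos hy]
        exact hc0
      · have hn : run l (ring y h) z = run l h z := run_ring_eq l h y z fun hy' => hy (hg1 hy')
        have hz : ZZ z Q l (ring y h) ≤ ZZ z Q l h := by
          have := Q.ge l h y
          unfold ZZ
          omega
        refine mul_nonneg_of_nonpos_of_nonpos ?_ (sub_nonpos.mpr (clip_mono b M hz))
        unfold uu0
        rw [if_neg hy]
        have : 0 ≤ 1 / (Λ.card : ℝ) := by positivity
        linarith
    obtain ⟨y, hy, hgain⟩ := run_ring_gain l h z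
    have hyB : y ∈ B := hg1 hy
    have hyΛ : y ∈ Λ := hB hyB
    refine le_trans ?_ (Finset.single_le_sum hterm hyΛ)
    have hu : uu0 Λ B y = 1 / (B.card : ℝ) - 1 / Λ.card := by
      unfold uu0
      rw [if_pos hyB]
    rw [hu]
    refine mul_le_mul_of_nonneg_left ?_ hc0
    have hf : Q.val l (ring y h) = Q.val l h :=
      Q.eq l h y fun hy' => (Finset.disjoint_left.mp hg2 hy') hyB
    have hz : ZZ z Q l h + 1 ≤ ZZ z Q l (ring y h) := by
      unfold ZZ
      omega
    by_cases hw : b ≤ ZZ z Q l h ∧ ZZ z Q l h ≤ b + M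
    · have h5 : win b M (ZZ z Q l h) = 1 := by
        unfold win
        rw [if_pos hw]
      have := clip_gain b M hz hw.1 hw.2
      linarith
    · have h5 : win b M (ZZ z Q l h) = 0 := by
        unfold win
        rw [if_neg hw]
      have := clip_mono b M (show ZZ z Q l h ≤ ZZ z Q l (ring y h) by omega)
      linarith
  · rw [if_neg hg, mul_one]
    have hw1 := win_le b M (ZZ z Q l h)
    have hw0 := win_nonneg b M (ZZ z Q l h)
    have h3 : (1 / (B.card : ℝ) - 1 / Λ.card) * win b M (ZZ z Q l h) ≤ 1 :=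
      (mul_le_mul hc1 hw1 hw0 zero_le_one).trans (by norm_num)
    have h4 : ∀ y ∈ Λ, -((M : ℝ) + 1) / Λ.card
        ≤ uu0 Λ B y * clip b M (ZZ z Q l (ring y h)) := by
      intro y _
      have hk0 := clip_nonneg b M (ZZ z Q l (ring y h))
      have hk1 := clip_le b M (ZZ z Q l (ring y h))
      have hu : -(1 / (Λ.card : ℝ)) ≤ uu0 Λ B y := by
        unfold uu0
        have : 0 ≤ (if y ∈ B then 1 / (B.card : ℝ) else 0) := by
          split_ifs
          · positivity
          · exact le_rfl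
        linarith
      have h6 : -(1 / (Λ.card : ℝ)) * clip b M (ZZ z Q l (ring y h))
          ≤ uu0 Λ B y * clip b M (ZZ z Q l (ring y h)) := mul_le_mul_of_nonneg_right hu hk0
      have h7 : (1 / (Λ.card : ℝ)) * clip b M (ZZ z Q l (ring y h))
          ≤ (1 / (Λ.card : ℝ)) * (M + 1) := mul_le_mul_of_nonneg_left hk1 (by positivity)
      have h8 : -((M : ℝ) + 1) / Λ.card = -((1 / (Λ.card : ℝ)) * (M + 1)) := by ring
      rw [h8]
      linarith
    have h5 := Finset.sum_le_sum h4
    rw [Finset.sum_const, nsmul_eq_mul, mul_div_cancel₀ _ h2.ne'] at h5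
    linarith

end Pool.BDep.Rough
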