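import Pool.Agent.Work.MP_c264fd_rough.Law
import Pool.Agent.Work.MP_c264fd_rough.Defs
import Pool.Agent.Work.MP_c264fd_pr_h14.TrajUnique
import Pool.Agent.Work.MP_c264fd_pr_h14.ClockNice
import Pool.Agent.Work.MP_c264fd_pr_h14.ClockExists
import Pool.Agent.Work.MP_c264fd_pr_helper26.ClockLaw
import Pool.Agent.Work.MP_c264fd_pr_helper94.Bridge

/-!
# From the box dynamics to the process
-/

open MeasureTheory ProbabilityTheory Filter Topology
open scoped ENNReal NNReal

namespace Pool.BDep.Rough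

open Rho

/-- `h ↦` the functional as a function of the final configuration -/
structure FinalForm (Q : FarPart) (v : Config → ℤ) : Prop where
  val : ∀ l h, Q.val l h = v (run l h)
  meas : Measurable v
  loc : ∃ D : Finset ℤ, ∀ h h' : Config, (∀ x ∈ D, h x = h' x) → v h = v h'

theorem farNone_form : FinalForm farNone (fun _ => 0) where
  val := fun _ _ => rfl
  meas := measurable_const
  loc := ⟨∅, fun _ _ _ => rfl⟩

theorem farAt_form (x : ℤ) : FinalForm (farAt x) (fun h => h x) where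
  val := fun _ _ => rfl
  meas := measurable_pi_apply x
  loc := ⟨{x}, fun _ _ hh => hh x (Finset.mem_singleton_self x)⟩

/-- the box `[-n, n]` has `2 n + 1` points -/
theorem card_box (n : ℕ) : (box n).card = 2 * n + 1 := by
  unfold box
  rw [Int.card_Icc]
  omega

theorem process_le {Ω : Type} [mΩ : MeasurableSpace Ω] (P : Measure Ω) [hP : IsProbabilityMeasure P]
    (C : ℤ → Ω → Set ℝ) (g : Ω → Config) (H : ℝ → Ω → Config) (hBD : IsBallisticDeposition P C g H)
    (z : ℤ) (T : ℕ) (hT : 0 < T) (Q : FarPart) (v : Config → ℤ) (hv : FinalForm Q v)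
    (hQ : FarOK z (6 * T) Q) (b : ℤ) (M : ℕ) (t : ℝ) (ht : 2 * T ≤ t) :
    P {ω | Win b M (H t ω z - v (H t ω))}
      ≤ ENNReal.ofReal ((M + 1) / Real.sqrt (Vinf T) + (M + 2) / Vinf T) := by
  have ht0 : 0 ≤ t := by
    have : (0 : ℝ) ≤ T := Nat.cast_nonneg _
    linarith
  have hVT : 0 < Vinf T := by
    have h1 := log_le_Vinf T
    have h2 : 0 < Real.log (T + 1) := Real.log_pos (by
      have : (1 : ℝ) ≤ T := by exact_mod_cast hT
      linarith)
    linarith [div_pos h2 (show (0 : ℝ) < 13 by norm_num)]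
  have hlaw := fun n : ℕ => stmt_ClockLaw stmt_RhoProb Ω mΩ P hP C g hBD.clocks hBD.measurable
    hBD.indep (box n) t ht0
  have hnice := stmt_ClockNice Ω mΩ P hP C hBD.clocks
  have hconv : ∀ᵐ ω ∂P, ∀ x : ℤ, ∀ᶠ n in atTop,
      H t ω x = run (ringList (fun x => C x ω) (box n) t) (g ω) x := by
    filter_upwards [hnice, hBD.init, hBD.dyn] with ω h1 h2 h3 x
    have := stmt_TrajUnique (fun x => C x ω) (fun t => H t ω) h1 h3 t x ht0
    rw [h2] at this
    exact this
  -- the events in the boxes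
  set E : ℕ → Set Ω := fun n =>
    {ω | Win b M (ZZ z Q (ringList (fun x => C x ω) (box n) t) (g ω))} with hE
  have hEle : ∀ᶠ n in atTop, P (E n) ≤ ENNReal.ofReal
      (bnd T M (2 * n + 1 : ℕ) + tl T t (2 * n + 1 : ℕ)) := by
    have hV : ∀ᶠ n : ℕ in atTop, 0 < Vinf T - T / ((2 * n + 1 : ℕ) : ℝ) := by
      have h0 : Tendsto (fun n : ℕ => ((2 * n + 1 : ℕ) : ℝ)) atTop atTop := by
        refine tendsto_natCast_atTop_atTop.comp (tendsto_atTop_mono (fun n => ?_) tendsto_id)
        simp only [id]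
        omega
      have h2 : Tendsto (fun n : ℕ => Vinf T - T / ((2 * n + 1 : ℕ) : ℝ)) atTop
          (𝓝 (Vinf T)) := by
        have := (tendsto_const_nhds (x := Vinf T)).sub (h0.const_div_atTop (T : ℝ))
        rwa [sub_zero] at this
      exact h2.eventually (lt_mem_nhds hVT)
    filter_upwards [hV, eventually_ge_atTop (z.natAbs + 6 * T)] with n hn hnz
    have hB : Finset.Icc (z - 6 * T) (z + 6 * T) ⊆ box n := by
      intro y hy
      unfold box
      rw [Finset.mem_Icc] at hy ⊢
      omega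
    have hcard : (((box n).card : ℕ) : ℝ) = ((2 * n + 1 : ℕ) : ℝ) := by rw [card_box]
    have hΛ : 0 < (box n).card := by rw [card_box]; omega
    have hrun : Measurable (fun p : Config × List ℤ => ZZ z Q p.2 p.1) := by
      have h1 : (fun p : Config × List ℤ => ZZ z Q p.2 p.1)
          = fun p : Config × List ℤ => run p.2 p.1 z - v (run p.2 p.1) := by
        funext p
        unfold ZZ
        rw [hv.val]
      rw [h1]
      exact ((measurable_pi_apply z).comp Bridge.measurable_run_prod).sub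
        (hv.meas.comp Bridge.measurable_run_prod)
    have hS : MeasurableSet {p : Config × List ℤ | Win b M (ZZ z Q p.2 p.1)} := by
      have h1 : MeasurableSet {w : ℤ | Win b M w} := MeasurableSet.of_discrete
      exact hrun h1
    have hpair : AEMeasurable (fun ω => (g ω, ringList (fun x => C x ω) (box n) t)) P :=
      hBD.measurable.aemeasurable.prodMk (hlaw n).1
    have h3 : P (E n) = (P.map (fun ω => (g ω, ringList (fun x => C x ω) (box n) t)))
        {p : Config × List ℤ | Win b M (ZZ z Q p.2 p.1)} := by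
      rw [Measure.map_apply_of_aemeasurable hpair hS]
      rfl
    have hrp := stmt_RhoProb (box n) t ht0
    have hgp : IsProbabilityMeasure (P.map g) :=
      Measure.isProbabilityMeasure_map hBD.measurable.aemeasurable
    rw [h3, (hlaw n).2, Measure.prod_apply hS]
    calc ∫⁻ h, rho (box n) t (Prod.mk h ⁻¹' {p : Config × List ℤ | Win b M (ZZ z Q p.2 p.1)})
          ∂(P.map g)
        ≤ ∫⁻ _, ENNReal.ofReal (bnd T M (2 * n + 1 : ℕ) + tl T t (2 * n + 1 : ℕ)) ∂(P.map g) := by
          refine lintegral_mono fun h => ?_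
          have := rho_le hΛ z T Q hQ b M hB (by rw [hcard]; exact hn) h t ht0
          rw [hcard] at this
          exact this
      _ = _ := by rw [lintegral_const, measure_univ, mul_one]
  obtain ⟨N₀, hN₀⟩ := eventually_atTop.mp hEle
  set A : ℕ → Set Ω := fun N => ⋂ n ≥ N, E n with hA
  have hAm : Monotone A := by
    intro N N' hNN ω hω
    simp only [hA, Set.mem_iInter] at hω ⊢
    intro n hn
    exact hω n (le_trans hNN hn)
  have hAle : ∀ N, P (A N) ≤ ENNReal.ofReal ((M + 1) / Real.sqrt (Vinf T) + (M + 2) / Vinf T) := by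
    intro N
    have h1 : Tendsto (fun n : ℕ => ENNReal.ofReal
        (bnd T M (2 * n + 1 : ℕ) + tl T t (2 * n + 1 : ℕ))) atTop
        (𝓝 (ENNReal.ofReal ((M + 1) / Real.sqrt (Vinf T) + (M + 2) / Vinf T))) := by
      refine ENNReal.tendsto_ofReal ?_
      have := (bnd_tendsto T M hVT).add (tl_tendsto T hT t ht)
      rwa [add_zero] at this
    refine ge_of_tendsto h1 ?_
    filter_upwards [eventually_ge_atTop N, eventually_ge_atTop N₀] with n hn hn'
    refine le_trans (measure_mono ?_) (hN₀ n hn')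
    intro ω hω
    simp only [hA, Set.mem_iInter] at hω
    exact hω n hn
  have hsub : P {ω | Win b M (H t ω z - v (H t ω))} ≤ P (⋃ N, A N) := by
    refine measure_mono_ae ?_
    filter_upwards [hconv] with ω hω hw
    obtain ⟨D, hD⟩ := hv.loc
    have h1 : ∀ᶠ n : ℕ in atTop, ∀ x ∈ insert z D,
        H t ω x = run (ringList (fun x => C x ω) (box n) t) (g ω) x := by
      rw [eventually_all_finset]
      intro x _
      exact hω x
    obtain ⟨N, hN⟩ := eventually_atTop.mp h1
    refine Set.mem_iUnion.mpr ⟨N, ?_⟩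
    simp only [hA, Set.mem_iInter]
    intro n hn
    have h2 := hN n hn
    have h3 := h2 z (Finset.mem_insert_self z D)
    have h4 : v (H t ω) = v (run (ringList (fun x => C x ω) (box n) t) (g ω)) :=
      hD _ _ fun x hx => h2 x (Finset.mem_insert_of_mem hx)
    have h5 : Win b M (H t ω z - v (H t ω)) := hw
    show Win b M (ZZ z Q (ringList (fun x => C x ω) (box n) t) (g ω))
    unfold ZZ
    rw [hv.val, ← h3, ← h4]
    exact h5
  refine hsub.trans ?_
  rw [hAm.measure_iUnion]
  exact iSup_le hAle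

/-- the numerical bound -/
theorem numbers (M T : ℕ) (R : ℝ) (hR : 169 ≤ R) (hRT : R ≤ 13 * (T + 1)) :
    (M + 1) / Real.sqrt (Vinf T) + (M + 2) / Vinf T ≤ 60 * (M + 1) / Real.sqrt (Real.log R) := by
  have h1 := log_le_Vinf T
  have hR0 : 0 < R := by linarith
  have hlogR : 4 ≤ Real.log R := by
    have h2 : Real.exp 4 ≤ R := by
      have h3 := Real.exp_one_lt_d9
      have h4 : Real.exp 4 = Real.exp 1 ^ 4 := by
        rw [← Real.exp_nat_mul]
        norm_num
      have h5 : Real.exp 1 ^ 4 ≤ (3 : ℝ) ^ 4 :=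
        pow_le_pow_left₀ (Real.exp_pos _).le (by linarith) 4
      rw [h4]
      linarith
    rw [Real.le_log_iff_exp_le hR0]
    exact h2
  have hVR : Real.log R / 26 ≤ Vinf T := by
    have h2 : Real.log (R / 13) ≤ Real.log (T + 1) := by
      refine Real.log_le_log (by positivity) ?_
      rw [div_le_iff₀ (by norm_num)]
      linarith
    have h3 : Real.log (R / 13) = Real.log R - Real.log 13 := Real.log_div hR0.ne' (by norm_num)
    have h4 : 2 * Real.log 13 ≤ Real.log R := by
      have h5 : 2 * Real.log 13 = Real.log 169 := by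
        rw [show (169 : ℝ) = 13 ^ 2 by norm_num, Real.log_pow]
        norm_num
      rw [h5]
      exact Real.log_le_log (by norm_num) hR
    linarith
  set s := Real.sqrt (Real.log R) with hs
  have hs2 : s * s = Real.log R := Real.mul_self_sqrt (by linarith)
  have hs0 : 2 ≤ s := by
    rw [hs]
    refine Real.le_sqrt_of_sq_le ?_
    linarith
  have hspos : 0 < s := by linarith
  have hV0 : 0 < Vinf T := by linarith
  have h5 : s / 6 ≤ Real.sqrt (Vinf T) := by
    refine Real.le_sqrt_of_sq_le ?_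
    nlinarith
  have h6 : ((M : ℝ) + 1) / Real.sqrt (Vinf T) ≤ (M + 1) * 6 / s := by
    have h7 : 0 < s / 6 := by positivity
    have h8 := div_le_div_of_nonneg_left (show (0 : ℝ) ≤ M + 1 by positivity) h7 h5
    refine h8.trans (le_of_eq ?_)
    rw [div_div_eq_mul_div]
  have h7 : ((M : ℝ) + 2) / Vinf T ≤ (M + 1) * 26 / s := by
    have h8 : 0 < s * s / 26 := by positivity
    have h9 : s * s / 26 ≤ Vinf T := by rw [hs2]; exact hVR
    have h10 := div_le_div_of_nonneg_left (show (0 : ℝ) ≤ M + 2 by positivity) h8 h9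
    refine h10.trans ?_
    rw [div_div_eq_mul_div, div_le_div_iff₀ (by positivity) hspos]
    have hM : (0 : ℝ) ≤ M := Nat.cast_nonneg _
    have h11 : 0 ≤ (M : ℝ) * (s * (s - 1)) + s * (s - 2) := by
      have : 0 ≤ s * (s - 1) := mul_nonneg hspos.le (by linarith)
      have : 0 ≤ s * (s - 2) := mul_nonneg hspos.le (by linarith)
      positivity
    nlinarith
  refine (add_le_add h6 h7).trans ?_
  rw [← add_div]
  refine div_le_div_of_nonneg_right ?_ hspos.le
  have hM : (0 : ℝ) ≤ M := Nat.cast_nonneg _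
  linarith

/-- small `R`: the bound is trivial -/
theorem trivial_bound (M : ℕ) (R : ℝ) (hR : 2 ≤ R) (hR' : R ≤ 169) :
    1 ≤ 60 * ((M : ℝ) + 1) / Real.sqrt (Real.log R) := by
  have h1 : 0 < Real.log R := Real.log_pos (by linarith)
  have h2 : Real.log R ≤ 36 := by
    have h3 : Real.log R ≤ Real.log 169 := Real.log_le_log (by linarith) hR'
    have h4 : Real.log 169 ≤ 36 := by
      rw [Real.log_le_iff_le_exp (by norm_num)]
      have h5 : Real.exp 36 = Real.exp 1 ^ 36 := by
        rw [← Real.exp_nat_mul]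
        norm_num
      rw [h5]
      have h6 : (2 : ℝ) ≤ Real.exp 1 := by
        have := Real.exp_one_gt_d9
        linarith
      calc (169 : ℝ) ≤ 2 ^ 36 := by norm_num
        _ ≤ Real.exp 1 ^ 36 := pow_le_pow_left₀ (by norm_num) h6 36
    linarith
  have h3 : Real.sqrt (Real.log R) ≤ 6 := by
    rw [Real.sqrt_le_left (by norm_num)]
    linarith
  have h4 : 0 < Real.sqrt (Real.log R) := Real.sqrt_pos.mpr h1
  rw [le_div_iff₀ h4]
  have hM : (0 : ℝ) ≤ M := Nat.cast_nonneg _
  linarith

/-- the bound in terms of `R` -/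
theorem process_le' {Ω : Type} [mΩ : MeasurableSpace Ω] (P : Measure Ω)
    [hP : IsProbabilityMeasure P]
    (C : ℤ → Ω → Set ℝ) (g : Ω → Config) (H : ℝ → Ω → Config) (hBD : IsBallisticDeposition P C g H)
    (z : ℤ) (Q : FarPart) (v : Config → ℤ) (hv : FinalForm Q v) (R : ℝ) (hR : 2 ≤ R)
    (hQ : ∀ T : ℕ, 13 * (T : ℝ) ≤ R → 0 < T → FarOK z (6 * T) Q) (b : ℤ) (M : ℕ) (t : ℝ)
    (ht : R ≤ t) :
    P {ω | Win b M (H t ω z - v (H t ω))}
      ≤ ENNReal.ofReal (60 * (M + 1) / Real.sqrt (Real.log R)) := by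
  rcases le_or_gt R 169 with h1 | h1
  · refine (prob_le_one).trans ?_
    rw [← ENNReal.ofReal_one]
    exact ENNReal.ofReal_le_ofReal (trivial_bound M R hR h1)
  · set T := ⌊R / 13⌋₊ with hTd
    have h2 : (T : ℝ) ≤ R / 13 := Nat.floor_le (by positivity)
    have h3 : R / 13 < T + 1 := Nat.lt_floor_add_one _
    have hT : 0 < T := by
      have : (0 : ℝ) < T := by linarith
      exact_mod_cast this
    have hT13 : 13 * (T : ℝ) ≤ R := by linarith
    refine (process_le P C g H hBD z T hT Q v hv (hQ T hT13 hT) b M t (by linarith)).trans ?_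
    exact ENNReal.ofReal_le_ofReal (numbers M T R h1.le (by linarith))

theorem differenceRough : DifferenceRough 60 := by
  intro Ω mΩ P hP C g H hBD x y a M t R hR ht hxy
  have h1 := process_le' P C g H hBD x (farAt y) (fun h => h y) (farAt_form y) R hR
    (fun T hT hT0 => farAt_ok x y (6 * T) ?_) a M t ht
  · exact h1
  · have h2 : ((2 * ((6 * T : ℕ) : ℤ) + 1 : ℤ) : ℝ) ≤ ((|y - x| : ℤ) : ℝ) := by
      push_cast
      have h3 : |(y : ℝ) - x| = |(x : ℝ) - y| := abs_sub_comm _ _
      rw [h3]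
      have h4 : (1 : ℝ) ≤ T := by exact_mod_cast hT0
      linarith
    exact_mod_cast h2

theorem heightRough : HeightRough 60 := by
  intro Ω mΩ P hP C g H hBD x a M t ht
  have h1 := process_le' P C g H hBD x farNone (fun _ => 0) farNone_form t ht
    (fun T _ _ => farNone_ok x (6 * T)) a M t le_rfl
  simpa [Win] using h1

theorem processExists' : ProcessExists := by
  classical
  intro μ hμ
  obtain ⟨Ω, mΩ, P, hP, C, g, hC, hg, hgl, hind⟩ := stmt_ClockExists μ hμ
  have hnice := stmt_ClockNice Ω mΩ P hP C hC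
  let H : Ω → ℝ → Config := fun ω =>
    if h : Nice (fun x => C x ω) then (stmt_TrajExists _ (g ω) h).choose else fun _ => g ω
  refine ⟨Ω, mΩ, P, hP, C, g, fun t ω => H ω t, ⟨hC, hg, hind, ?_, ?_⟩, hgl⟩
  · filter_upwards [hnice] with ω hω
    simp only [H, dif_pos hω]
    exact (stmt_TrajExists _ (g ω) hω).choose_spec.1
  · filter_upwards [hnice] with ω hω
    simp only [H, dif_pos hω]
    exact (stmt_TrajExists _ (g ω) hω).choose_spec.2

theorem stationaryRough : StationaryRough 60 := by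
  intro μ hμ x a M hx
  obtain ⟨hμP, hst⟩ := hμ
  obtain ⟨Ω, mΩ, P, hP, C, g, H, hBD, hg⟩ := processExists' μ hμP
  have hxR : (2 : ℝ) ≤ |(x : ℝ)| := by exact_mod_cast hx
  obtain ⟨hm, hmap⟩ := hst Ω mΩ P hP C g H hBD hg |(x : ℝ)| (abs_nonneg _)
  have h1 := differenceRough Ω mΩ P hP C g H hBD x 0 a M |(x : ℝ)| |(x : ℝ)| hxR le_rfl
    (by simp)
  have hS : MeasurableSet {g : Config | a ≤ g x ∧ g x ≤ a + M} := by
    have h2 : MeasurableSet {w : ℤ | a ≤ w ∧ w ≤ a + M} := MeasurableSet.of_discrete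
    have h3 : Measurable (fun g : Config => g x) := measurable_pi_apply x
    exact h3 h2
  have hrec : AEMeasurable (fun ω => recenter (H |(x : ℝ)| ω)) P :=
    Bridge.measurable_recenter.comp_aemeasurable hm
  have h3 : μ {g : Config | a ≤ g x ∧ g x ≤ a + M}
      = P {ω | a ≤ H |(x : ℝ)| ω x - H |(x : ℝ)| ω 0 ∧
          H |(x : ℝ)| ω x - H |(x : ℝ)| ω 0 ≤ a + M} := by
    conv_lhs => rw [← hmap]
    rw [Measure.map_apply_of_aemeasurable hrec hS]
    rfl
  rw [h3]
  exact h1

/-- the mean of `|g(x)|` -/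
theorem meanRough : MeanRough (1 / 1000) (Real.exp (240 ^ 2)) := by
  intro μ hμ x hx
  have hμP := hμ.1
  have hx0 : 0 < |(x : ℝ)| := lt_of_lt_of_le (Real.exp_pos _) hx
  have hlog : (240 : ℝ) ^ 2 ≤ Real.log |(x : ℝ)| := by
    rw [Real.le_log_iff_exp_le hx0]
    exact hx
  set s := Real.sqrt (Real.log |(x : ℝ)|) with hs
  have hs240 : 240 ≤ s := Real.le_sqrt_of_sq_le hlog
  set K := ⌊s / 480⌋₊ with hK
  have hK1 : (K : ℝ) ≤ s / 480 := Nat.floor_le (by positivity)
  have hK2 : s / 480 < K + 1 := Nat.lt_floor_add_one _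
  have hx2 : 2 ≤ |x| := by
    have h1 : (2 : ℝ) ≤ |(x : ℝ)| := by
      refine le_trans ?_ hx
      have := Real.add_one_le_exp ((240 : ℝ) ^ 2)
      linarith
    exact_mod_cast h1
  have h1 := stationaryRough μ hμ x (-(K : ℤ)) (2 * K) hx2
  have h2 : (60 : ℝ) * (((2 * K : ℕ) : ℝ) + 1) / s ≤ 1 / 2 := by
    rw [div_le_iff₀ (by linarith)]
    push_cast
    linarith
  have hS : MeasurableSet {g : Config | -(K : ℤ) ≤ g x ∧ g x ≤ -(K : ℤ) + ((2 * K : ℕ) : ℤ)} := by
    have h2 : MeasurableSet {w : ℤ | -(K : ℤ) ≤ w ∧ w ≤ -(K : ℤ) + ((2 * K : ℕ) : ℤ)} :=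
      MeasurableSet.of_discrete
    have h3 : Measurable (fun g : Config => g x) := measurable_pi_apply x
    exact h3 h2
  set A := {g : Config | -(K : ℤ) ≤ g x ∧ g x ≤ -(K : ℤ) + ((2 * K : ℕ) : ℤ)} with hA
  have h3 : μ A ≤ ENNReal.ofReal (1 / 2) := by
    refine h1.trans (ENNReal.ofReal_le_ofReal ?_)
    rw [← hs]
    exact h2
  have h4 : ENNReal.ofReal (1 / 2) ≤ μ Aᶜ := by
    have h5 : μ Aᶜ = 1 - μ A := by
      rw [measure_compl hS (measure_ne_top _ _), measure_univ]
    rw [h5]
    have h6 : ENNReal.ofReal (1 / 2) = 1 - ENNReal.ofReal (1 / 2) := by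
      rw [← ENNReal.ofReal_one, ← ENNReal.ofReal_sub _ (by norm_num)]
      norm_num
    rw [h6]
    exact tsub_le_tsub_left h3 1
  have h5 : ∀ g ∈ Aᶜ, ENNReal.ofReal (s / 480) ≤ ENNReal.ofReal |((g x : ℤ) : ℝ)| := by
    intro g hg
    refine ENNReal.ofReal_le_ofReal ?_
    have h6 : (K : ℤ) + 1 ≤ |g x| := by
      by_contra hc
      apply hg
      rw [not_le] at hc
      have h7 : |g x| ≤ K := by omega
      rw [abs_le] at h7
      rw [hA, Set.mem_ofPred_eq]
      push_cast
      omega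
    have h7 : ((K : ℝ) + 1) ≤ |((g x : ℤ) : ℝ)| := by exact_mod_cast h6
    linarith
  calc ENNReal.ofReal (1 / 1000 * s)
      ≤ ENNReal.ofReal (s / 480) * ENNReal.ofReal (1 / 2) := by
        rw [← ENNReal.ofReal_mul (by positivity)]
        refine ENNReal.ofReal_le_ofReal ?_
        linarith
    _ ≤ ENNReal.ofReal (s / 480) * μ Aᶜ := mul_le_mul_right h4 _
    _ = ∫⁻ _ in Aᶜ, ENNReal.ofReal (s / 480) ∂μ := by
        rw [lintegral_const, Measure.restrict_apply_univ]
    _ ≤ ∫⁻ g in Aᶜ, ENNReal.ofReal |((g x : ℤ) : ℝ)| ∂μ :=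
        setLIntegral_mono' hS.compl h5
    _ ≤ ∫⁻ g, ENNReal.ofReal |((g x : ℤ) : ℝ)| ∂μ := setLIntegral_le_lintegral _ _

end Pool.BDep.Rough
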