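import Pool.Agent.Work.MP_c264fd_rough.Corr

/-!
# The choice of the scales
-/

open Filter Topology

namespace Pool.BDep.Rough

/-- no second height -/
noncomputable def farNone : FarPart where
  val := fun _ _ => 0
  dom := fun _ => ∅
  ge := fun _ _ _ => le_rfl
  eq := fun _ _ _ _ => rfl
  cons := fun _ _ _ => rfl

/-- the height at `x` -/
noncomputable def farAt (x : ℤ) : FarPart where
  val := fun l h => run l h x
  dom := fun l => II x l
  ge := fun l h y => run_ring_ge l h y x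
  eq := fun l h y hy => run_ring_eq l h y x hy
  cons := fun _ _ _ => rfl

open Classical in
/-- the far part does not interfere with the intervals of radius `≤ R` around `z` -/
structure FarOK (z : ℤ) (R : ℕ) (Q : FarPart) : Prop where
  card : ∀ (Λ : Finset ℤ) (m : ℕ), 0 < Λ.card →
    Em Λ m (fun l => ((Q.dom l).card : ℝ)) ≤ 1 + 2 * m / Λ.card
  tail : ∀ (Λ : Finset ℤ) (m r : ℕ), 0 < Λ.card → r ≤ R →
    Em Λ m (fun l => if Disjoint (Q.dom l) (Finset.Icc (z - r) (z + r)) then (0 : ℝ) else 1)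
      ≤ 2 * ((1 / 2 : ℝ) ^ (r + 1) * Real.exp (m / Λ.card))

theorem farNone_ok (z : ℤ) (R : ℕ) : FarOK z R farNone := by
  classical
  constructor
  · intro Λ m hΛ
    have h1 : Em Λ m (fun l => ((farNone.dom l).card : ℝ)) = 0 := by
      have : (fun l => ((farNone.dom l).card : ℝ)) = fun _ => (0 : ℝ) := by
        funext l
        simp [farNone]
      rw [this, Em_const hΛ]
    rw [h1]
    positivity
  · intro Λ m r hΛ _
    have h1 : Em Λ m (fun l => if Disjoint (farNone.dom l) (Finset.Icc (z - r) (z + r))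
        then (0 : ℝ) else 1) = 0 := by
      have : (fun l => if Disjoint (farNone.dom l) (Finset.Icc (z - (r : ℤ)) (z + r))
          then (0 : ℝ) else 1) = fun _ => (0 : ℝ) := by
        funext l
        simp [farNone]
      rw [this, Em_const hΛ]
    rw [h1]
    positivity

theorem farAt_ok (z x : ℤ) (R : ℕ) (hx : 2 * (R : ℤ) + 1 ≤ |x - z|) : FarOK z R (farAt x) := by
  classical
  constructor
  · intro Λ m hΛ
    exact Em_card_II hΛ x m
  · intro Λ m r hΛ hr
    refine le_trans (Em_mono m fun l _ => ?_) (Em_II_tail hΛ x m (r + 1))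
    by_cases hd : Disjoint ((farAt x).dom l) (Finset.Icc (z - (r : ℤ)) (z + r))
    · rw [if_pos hd]
      split_ifs <;> norm_num
    · rw [if_neg hd, if_pos]
      by_contra hc
      rw [not_or, not_le, not_le] at hc
      refine hd (Finset.disjoint_left.mpr fun y hy hy' => ?_)
      have hy1 : y ∈ Finset.Icc (gl x l) (gr x l) := hy
      rw [Finset.mem_Icc] at hy1 hy'
      have hrR : (r : ℤ) ≤ R := by exact_mod_cast hr
      push_cast at hc
      rcases le_or_gt 0 (x - z) with h0 | h0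
      · rw [abs_of_nonneg h0] at hx
        omega
      · rw [abs_of_neg h0] at hx
        omega

/-- radius at depth `i` -/
def rad (N i : ℕ) : ℕ := 6 * (i / N + 1)

/-- the interval at depth `i` -/
noncomputable def BB (z : ℤ) (N i : ℕ) : Finset ℤ := Finset.Icc (z - rad N i) (z + rad N i)

theorem card_BB (z : ℤ) (N i : ℕ) : ((BB z N i).card : ℝ) = 12 * ((i / N : ℕ) + 1) + 1 := by
  have h1 : (BB z N i).card = 2 * rad N i + 1 := by
    rw [BB, Int.card_Icc]
    omega
  rw [h1, rad]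
  push_cast
  ring

theorem sum_blocks (N T : ℕ) (hN : 0 < N) (f : ℕ → ℝ) :
    ∑ i ∈ Finset.range (N * T), f (i / N) = N * ∑ j ∈ Finset.range T, f j := by
  induction T with
  | zero => simp
  | succ T ih =>
    rw [Nat.mul_succ, Finset.sum_range_add, ih, Finset.sum_range_succ, mul_add]
    congr 1
    have h1 : ∀ i ∈ Finset.range N, f ((N * T + i) / N) = f T := by
      intro i hi
      rw [Finset.mem_range] at hi
      rw [Nat.mul_add_div hN, Nat.div_eq_of_lt hi, add_zero]
    rw [Finset.sum_congr rfl h1, Finset.sum_const, Finset.card_range, nsmul_eq_mul]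

theorem sum_range_zero_tail (f : ℕ → ℝ) (L m : ℕ) (hm : L ≤ m) (hf : ∀ i, L ≤ i → f i = 0) :
    ∑ i ∈ Finset.range m, f i = ∑ i ∈ Finset.range L, f i := by
  obtain ⟨k, rfl⟩ := Nat.exists_eq_add_of_le hm
  rw [Finset.sum_range_add, Finset.sum_eq_zero (s := Finset.range k) fun i _ => hf _ (by omega),
    add_zero]

/-- the limiting variance -/
noncomputable def Vinf (T : ℕ) : ℝ := ∑ j ∈ Finset.range T, 1 / (12 * ((j : ℝ) + 1) + 1)

/-- the variance -/
theorem var_eq {Λ : Finset ℤ} (hΛ : 0 < Λ.card) (z : ℤ) (T m : ℕ) (hm : Λ.card * T ≤ m) :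
    ∑ i ∈ Finset.range m, cc Λ (BB z Λ.card) (Λ.card * T) i = Vinf T - T / Λ.card := by
  have hN : (0 : ℝ) < Λ.card := by exact_mod_cast hΛ
  rw [sum_range_zero_tail _ (Λ.card * T) m hm (fun i hi => by
    unfold cc
    rw [if_neg (by omega)])]
  have h1 : ∀ i ∈ Finset.range (Λ.card * T), cc Λ (BB z Λ.card) (Λ.card * T) i
      = (fun j : ℕ => (1 / (12 * ((j : ℝ) + 1) + 1) - 1 / Λ.card) / Λ.card) (i / Λ.card) := by
    intro i hi
    rw [Finset.mem_range] at hi
    unfold cc
    rw [if_pos hi, card_BB]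
  rw [Finset.sum_congr rfl h1, sum_blocks Λ.card T hΛ
    (fun j : ℕ => (1 / (12 * ((j : ℝ) + 1) + 1) - 1 / Λ.card) / Λ.card), ← Finset.sum_div,
    mul_div_cancel₀ _ hN.ne', Finset.sum_sub_distrib, Finset.sum_const, Finset.card_range,
    nsmul_eq_mul, Vinf]
  ring

/-- the probability of the bad event -/
theorem pbad_le {Λ : Finset ℤ} (hΛ : 0 < Λ.card) (z : ℤ) (T : ℕ) (Q : FarPart)
    (hQ : FarOK z (6 * T) Q) (i : ℕ) (hi : i < Λ.card * T) :
    pbad Λ (BB z Λ.card) z Q i ≤ 2 * (1 / 16 : ℝ) ^ (i / Λ.card + 1) := by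
  classical
  have hN : (0 : ℝ) < Λ.card := by exact_mod_cast hΛ
  set j := i / Λ.card with hj
  have hjT : j < T := Nat.div_lt_of_lt_mul hi
  have hr : rad Λ.card i ≤ 6 * T := by
    unfold rad
    rw [← hj]
    omega
  have h1 := Em_II_tail hΛ z i (rad Λ.card i + 1)
  have h2 := hQ.tail Λ i (rad Λ.card i) hΛ hr
  have h3 : pbad Λ (BB z Λ.card) z Q i
      ≤ 2 * ((1 / 2 : ℝ) ^ (rad Λ.card i + 1) * Real.exp (i / Λ.card))
        + 2 * ((1 / 2 : ℝ) ^ (rad Λ.card i + 1) * Real.exp (i / Λ.card)) := by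
    refine le_trans ?_ (add_le_add h1 h2)
    rw [← Em_add]
    unfold pbad
    refine Em_mono i fun l _ => ?_
    by_cases hd : Disjoint (Q.dom l)
        (Finset.Icc (z - (rad Λ.card i : ℤ)) (z + rad Λ.card i))
    · by_cases hc : z + ((rad Λ.card i + 1 : ℕ) : ℤ) ≤ gr z l ∨
        gl z l ≤ z - ((rad Λ.card i + 1 : ℕ) : ℤ)
      · rw [if_pos hc]
        split_ifs <;> norm_num
      · rw [if_neg hc, if_pos hd, if_pos, add_zero]
        refine ⟨fun y hy => ?_, hd⟩
        rw [not_or, not_le, not_le] at hc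
        unfold II at hy
        unfold BB
        rw [Finset.mem_Icc] at hy ⊢
        push_cast at hc
        omega
    · rw [if_neg hd]
      split_ifs <;> norm_num
  have h4 : (i : ℝ) / Λ.card ≤ j + 1 := by
    rw [div_le_iff₀ hN]
    have h5 : i < Λ.card * (j + 1) := by
      have := Nat.div_add_mod i Λ.card
      have := Nat.mod_lt i hΛ
      rw [← hj] at *
      nlinarith
    have h6 : (i : ℝ) < Λ.card * (j + 1) := by exact_mod_cast h5
    linarith
  have h5 : Real.exp (i / Λ.card) ≤ 4 ^ (j + 1) := by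
    calc Real.exp (i / Λ.card) ≤ Real.exp (j + 1) := Real.exp_le_exp.mpr h4
      _ = Real.exp 1 ^ (j + 1) := by
          rw [← Real.exp_nat_mul]
          congr 1
          push_cast
          ring
      _ ≤ 4 ^ (j + 1) := by
          refine pow_le_pow_left₀ (Real.exp_pos _).le ?_ _
          have := Real.exp_one_lt_d9
          linarith
  have h6 : (1 / 2 : ℝ) ^ (rad Λ.card i + 1) = (1 / 2) * (1 / 64 : ℝ) ^ (j + 1) := by
    unfold rad
    rw [← hj, pow_succ, pow_mul]
    norm_num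
    ring
  have h7 : (1 / 2 : ℝ) ^ (rad Λ.card i + 1) * Real.exp (i / Λ.card)
      ≤ (1 / 2) * (1 / 16 : ℝ) ^ (j + 1) := by
    rw [h6, mul_assoc]
    refine mul_le_mul_of_nonneg_left ?_ (by norm_num)
    calc (1 / 64 : ℝ) ^ (j + 1) * Real.exp (i / Λ.card)
        ≤ (1 / 64 : ℝ) ^ (j + 1) * 4 ^ (j + 1) := mul_le_mul_of_nonneg_left h5 (by positivity)
      _ = (1 / 16 : ℝ) ^ (j + 1) := by rw [← mul_pow]; norm_num
  linarith

/-- the total error -/
theorem err_le {Λ : Finset ℤ} (hΛ : 0 < Λ.card) (z : ℤ) (T : ℕ) (Q : FarPart)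
    (hQ : FarOK z (6 * T) Q) (M m : ℕ) (hm : Λ.card * T ≤ m) :
    ∑ i ∈ Finset.range m, err Λ (BB z Λ.card) (Λ.card * T) z Q M i
      ≤ (M + 2) + T * (2 + 4 * T) / Λ.card := by
  have hN : (0 : ℝ) < Λ.card := by exact_mod_cast hΛ
  rw [sum_range_zero_tail _ (Λ.card * T) m hm (fun i hi => by
    unfold err cc
    rw [if_neg (by omega), if_neg (by omega), zero_mul, zero_add])]
  have h1 : ∀ i ∈ Finset.range (Λ.card * T), err Λ (BB z Λ.card) (Λ.card * T) z Q M i
      ≤ (fun j : ℕ => ((M + 2) * (2 * (1 / 16 : ℝ) ^ (j + 1)) + (2 + 4 * T) / Λ.card) / Λ.card)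
        (i / Λ.card) := by
    intro i hi
    rw [Finset.mem_range] at hi
    have hp := pbad_le hΛ z T Q hQ i hi
    have hd : dsz Λ z Q i ≤ (2 + 4 * T) / Λ.card := by
      unfold dsz
      refine div_le_div_of_nonneg_right ?_ hN.le
      rw [Em_add]
      have h2 := Em_card_II hΛ z i
      have h3 := hQ.card Λ i hΛ
      have h4 : (i : ℝ) / Λ.card ≤ T := by
        rw [div_le_iff₀ hN]
        have : (i : ℝ) < (Λ.card * T : ℕ) := by exact_mod_cast hi
        push_cast at this
        linarith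
      have h5 : 2 * (i : ℝ) / Λ.card = 2 * (i / Λ.card) := by ring
      rw [h5] at h2 h3
      linarith
    have hd0 : 0 ≤ dsz Λ z Q i := by
      unfold dsz
      refine div_nonneg (Em_nonneg i fun l _ => by positivity) hN.le
    have hc : cc Λ (BB z Λ.card) (Λ.card * T) i ≤ 1 / Λ.card := by
      unfold cc
      rw [if_pos hi]
      refine div_le_div_of_nonneg_right ?_ hN.le
      rw [card_BB]
      have h6 : 1 / (12 * (((i / Λ.card : ℕ) : ℝ) + 1) + 1) ≤ 1 := by
        rw [div_le_one (by positivity)]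
        have : (0 : ℝ) ≤ ((i / Λ.card : ℕ) : ℝ) := Nat.cast_nonneg _
        linarith
      have h7 : 0 ≤ 1 / (Λ.card : ℝ) := by positivity
      linarith
    have hcd : cc Λ (BB z Λ.card) (Λ.card * T) i * dsz Λ z Q i
        ≤ (1 / Λ.card) * ((2 + 4 * T) / Λ.card) := mul_le_mul hc hd hd0 (by positivity)
    unfold err
    rw [if_pos hi]
    have h8 : (M + 2) * pbad Λ (BB z Λ.card) z Q i / Λ.card
        ≤ (M + 2) * (2 * (1 / 16 : ℝ) ^ (i / Λ.card + 1)) / Λ.card :=
      div_le_div_of_nonneg_right (mul_le_mul_of_nonneg_left hp (by positivity)) hN.le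
    refine (add_le_add h8 hcd).trans (le_of_eq ?_)
    ring
  refine (Finset.sum_le_sum h1).trans ?_
  rw [sum_blocks Λ.card T hΛ
    (fun j : ℕ => ((M + 2) * (2 * (1 / 16 : ℝ) ^ (j + 1)) + (2 + 4 * T) / Λ.card) / Λ.card),
    ← Finset.sum_div, mul_div_cancel₀ _ hN.ne', Finset.sum_add_distrib,
    Finset.sum_const, Finset.card_range, nsmul_eq_mul, ← Finset.mul_sum, ← Finset.mul_sum]
  have h9 : ∑ j ∈ Finset.range T, (1 / 16 : ℝ) ^ (j + 1) ≤ 1 / 2 := by
    have h10 : ∀ T : ℕ, ∑ j ∈ Finset.range T, (1 / 16 : ℝ) ^ (j + 1)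
        ≤ 1 / 2 - (1 / 16 : ℝ) ^ T * (1 / 2) := by
      intro T
      induction T with
      | zero => simp
      | succ T ih =>
        rw [Finset.sum_range_succ]
        have : 0 < (1 / 16 : ℝ) ^ T := by positivity
        rw [pow_succ]
        linarith
    have := h10 T
    have : 0 < (1 / 16 : ℝ) ^ T := by positivity
    linarith
  have h11 : (M + 2) * (2 * ∑ j ∈ Finset.range T, (1 / 16 : ℝ) ^ (j + 1)) ≤ (M + 2) * 1 :=
    mul_le_mul_of_nonneg_left (by linarith) (by positivity)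
  have h12 : (T : ℝ) * ((2 + 4 * T) / Λ.card) = T * (2 + 4 * T) / Λ.card := by ring
  rw [h12]
  linarith

/-- the bound for lists of fixed length -/
noncomputable def bnd (T M : ℕ) (N : ℝ) : ℝ :=
  (M + 1) / Real.sqrt (Vinf T - T / N) + ((M + 2) + T * (2 + 4 * T) / N) / (Vinf T - T / N)

theorem pw_le {Λ : Finset ℤ} (hΛ : 0 < Λ.card) (z : ℤ) (T : ℕ) (Q : FarPart)
    (hQ : FarOK z (6 * T) Q) (b : ℤ) (M m : ℕ) (hm : Λ.card * T ≤ m)
    (hB : Finset.Icc (z - 6 * T) (z + 6 * T) ⊆ Λ) (hV : 0 < Vinf T - T / Λ.card) (h : Config) :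
    pw Λ z Q b M m h ≤ bnd T M Λ.card := by
  have hB' : ∀ i < Λ.card * T, BB z Λ.card i ⊆ Λ := by
    intro i hi y hy
    refine hB ?_
    have hjT : i / Λ.card < T := Nat.div_lt_of_lt_mul hi
    unfold BB rad at hy
    rw [Finset.mem_Icc] at hy ⊢
    generalize i / Λ.card = j at *
    push_cast at hy
    omega
  have hB0 : ∀ i < Λ.card * T, 0 < (BB z Λ.card i).card := by
    intro i _
    rw [BB, Int.card_Icc]
    omega
  have hve := var_eq hΛ z T m hm
  have h1 := pw_bound hB' hB0 hΛ z Q b M m h (by rw [hve]; exact hV)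
  rw [hve] at h1
  have h2 := err_le hΛ z T Q hQ M m hm
  set V := Vinf T - T / Λ.card with hVd
  have hs : 0 < Real.sqrt V := Real.sqrt_pos.mpr hV
  have hss : Real.sqrt V * Real.sqrt V = V := Real.mul_self_sqrt hV.le
  have h3 : pw Λ z Q b M m h ≤ ((M + 1) * Real.sqrt V + ((M + 2) + T * (2 + 4 * T) / Λ.card)) / V := by
    rw [le_div_iff₀ hV, mul_comm]
    linarith
  refine h3.trans (le_of_eq ?_)
  unfold bnd
  rw [← hVd, add_div]
  congr 1
  rw [div_eq_div_iff hV.ne' hs.ne', mul_assoc, hss]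

/-- the limit of the bound -/
theorem bnd_tendsto (T M : ℕ) (hT : 0 < Vinf T) :
    Tendsto (fun n : ℕ => bnd T M (2 * n + 1 : ℕ)) atTop
      (𝓝 ((M + 1) / Real.sqrt (Vinf T) + (M + 2) / Vinf T)) := by
  have h0 : Tendsto (fun n : ℕ => ((2 * n + 1 : ℕ) : ℝ)) atTop atTop := by
    refine tendsto_natCast_atTop_atTop.comp (tendsto_atTop_mono (fun n => ?_) tendsto_id)
    simp only [id]
    omega
  have h1 : ∀ c : ℝ, Tendsto (fun n : ℕ => c / ((2 * n + 1 : ℕ) : ℝ)) atTop (𝓝 0) :=
    fun c => h0.const_div_atTop c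
  have h2 : Tendsto (fun n : ℕ => Vinf T - T / ((2 * n + 1 : ℕ) : ℝ)) atTop (𝓝 (Vinf T)) := by
    have := (tendsto_const_nhds (x := Vinf T)).sub (h1 T)
    rwa [sub_zero] at this
  have h3 : Tendsto (fun n : ℕ => ((M : ℝ) + 2) + T * (2 + 4 * T) / ((2 * n + 1 : ℕ) : ℝ)) atTop
      (𝓝 ((M : ℝ) + 2)) := by
    have := (tendsto_const_nhds (x := (M : ℝ) + 2)).add (h1 (T * (2 + 4 * T)))
    rwa [add_zero] at this
  unfold bnd
  refine Tendsto.add ?_ (h3.div h2 hT.ne')
  refine Tendsto.div tendsto_const_nhds ((Real.continuous_sqrt.tendsto _).comp h2) ?_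
  exact (Real.sqrt_pos.mpr hT).ne'

/-- the variance is at least logarithmic -/
theorem log_le_Vinf (T : ℕ) : Real.log (T + 1) / 13 ≤ Vinf T := by
  have h1 : Real.log (T + 1) ≤ ∑ j ∈ Finset.range T, 1 / ((j : ℝ) + 1) := by
    have h2 := log_add_one_le_harmonic T
    push_cast at h2
    refine h2.trans (le_of_eq ?_)
    unfold harmonic
    push_cast
    exact Finset.sum_congr rfl fun j _ => by rw [one_div]
  have h3 : (∑ j ∈ Finset.range T, 1 / ((j : ℝ) + 1)) / 13 ≤ Vinf T := by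
    unfold Vinf
    rw [Finset.sum_div]
    refine Finset.sum_le_sum fun j _ => ?_
    rw [div_div]
    refine one_div_le_one_div_of_le (by positivity) ?_
    have : (0 : ℝ) ≤ j := Nat.cast_nonneg _
    linarith
  refine le_trans ?_ h3
  exact div_le_div_of_nonneg_right h1 (by norm_num)

end Pool.BDep.Rough
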